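import Pool.Agent.Q121.BN.Basic

/-! # Project BN: assembly -/

open H974 MeasureTheory

namespace Q121.BN

/-- the configuration with `A x = a`: probability of the arm event in terms of `phi` -/
theorem sum_arm (hPat : S_Pat) (l l' : Om → ℝ) (hl : ∑ a, l a = 1) (hl' : ∑ a, l' a = 1)
    (n : ℕ) (x : Vtx) (hx : x ∈ bxV n) (A : Cf) :
    ∑ a : Om, (l' a - l a) * ind (ArmC n (Function.update A x a)) =
      ind (¬ ArmC n (cut A x)) * (phi l' (x = (0, 0)) (onB n x) (II n A x) (JJ n A x) -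
        phi l (x = (0, 0)) (onB n x) (II n A x) (JJ n A x)) := by
  by_cases hb : ArmC n (cut A x)
  · have h1 : ∀ a : Om, ind (ArmC n (Function.update A x a)) = 1 := fun a =>
      ind_of (((hPat n A x a hx).2.2).mpr (Or.inl hb))
    rw [ind_not_of (not_not.mpr hb), zero_mul]
    simp only [h1, mul_one]
    rw [Finset.sum_sub_distrib, hl, hl', sub_self]
  · rw [ind_of hb, one_mul]
    unfold phi
    rw [← Finset.sum_sub_distrib]
    refine Finset.sum_congr rfl fun a _ => ?_
    have h1 : ArmC n (Function.update A x a) ↔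
        ((x = (0, 0) ∨ (a ∩ II n A x).Nonempty) ∧ (onB n x ∨ (a ∩ JJ n A x).Nonempty)) := by
      rw [(hPat n A x a hx).2.2]
      constructor
      · rintro (h | h)
        · exact absurd h hb
        · exact h
      · exact Or.inr
    rw [ind_congr h1]
    ring

/-- the sum over the values at `x` inside the expectation -/
theorem sum_Ev (l l' : Om → ℝ) (κ : Vtx → Om → ℝ) (L : List Vtx) (n : ℕ) (x : Vtx) (B : Cf) :
    ∑ a : Om, (l' a - l a) * Ev κ L (fun A => ind (ArmC n (Function.update A x a))) B =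
      Ev κ L (fun A => ∑ a : Om, (l' a - l a) * ind (ArmC n (Function.update A x a))) B := by
  rw [Ev_sum]
  exact Finset.sum_congr rfl fun a _ => (Ev_smul L _ _ B).symm

theorem mu3_sum : ∑ a : Om, mu3 a = 1 := by
  have h : ∀ a : Om, mu3 a = if a.card = 3 then (1 / 4 : ℝ) else 0 := fun _ => rfl
  simp only [h]
  rw [← Finset.sum_filter, Finset.sum_const]
  have : (Finset.univ.filter (fun a : Om => a.card = 3)).card = 4 := by decide
  rw [this]; norm_num

theorem mu3_nonneg (a : Om) : 0 ≤ mu3 a := by unfold mu3; split_ifs <;> norm_num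

theorem r0_bounds : 0 ≤ r0 ∧ r0 ≤ 1 ∧ r0 ^ 2 = 1 / 2 := by
  have h : r0 ^ 2 = 1 / 2 := Real.sq_sqrt (by norm_num)
  have h0 : 0 ≤ r0 := Real.sqrt_nonneg _
  exact ⟨h0, by nlinarith, h⟩

theorem nu_nonneg {r : ℝ} (h0 : 0 ≤ r) (h1 : r ≤ 1) (a : Om) : 0 ≤ nu r a := by
  unfold nu
  exact mul_nonneg (pow_nonneg h0 _) (pow_nonneg (by linarith) _)

theorem nu_sum (r : ℝ) : ∑ a : Om, nu r a = 1 := by
  have h : ∀ a : Om, nu r a = r ^ a.card * (1 - r) ^ ((Finset.univ : Finset (Fin 4)).card - a.card) :=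
    fun a => by simp [nu]
  simp only [h]
  have h2 := Finset.sum_pow_mul_eq_add_pow r (1 - r) (Finset.univ : Finset (Fin 4))
  rw [Finset.powerset_univ] at h2
  rw [h2]
  simp

theorem mix_nonneg (a : Om) : 0 ≤ mix a := by
  unfold mix
  have h1 := nu_nonneg r0_bounds.1 r0_bounds.2.1 a
  have h2 := mu3_nonneg a
  linarith

theorem mix_sum : ∑ a : Om, mix a = 1 := by
  unfold mix
  rw [Finset.sum_add_distrib, ← Finset.mul_sum, ← Finset.mul_sum, nu_sum, mu3_sum]
  norm_num

theorem phi_mix (p q : Prop) (I J : Om) :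
    phi mix p q I J = (1 / 2) * phi (nu r0) p q I J + (1 / 2) * phi mu3 p q I J := by
  unfold phi
  rw [Finset.mul_sum, Finset.mul_sum, ← Finset.sum_add_distrib]
  refine Finset.sum_congr rfl fun a _ => ?_
  unfold mix; ring

/-- step 2: from the mixture to the 3-neighbour model -/
theorem step2 (hHyb : S_Hyb) (hPat : S_Pat) (hPhi : S_Phi) (n : ℕ) (B : Cf) :
    Ev (fun _ => mix) (bxV n).toList (fun A => ind (ArmC n A)) B ≤
      Ev (fun _ => mu3) (bxV n).toList (fun A => ind (ArmC n A)) B := by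
  apply hHyb mix mu3 (bxV n).toList _ B (Finset.nodup_toList _)
  intro x hx κ hκ
  have hx' : x ∈ bxV n := Finset.mem_toList.mp hx
  have hk : ∀ y a, 0 ≤ κ y a := by
    intro y a
    rcases hκ y with h | h
    · rw [h]; exact mix_nonneg a
    · rw [h]; exact mu3_nonneg a
  rw [sum_Ev]
  apply Ev_nonneg hk
  intro A
  rw [sum_arm hPat mix mu3 mix_sum mu3_sum n x hx' A]
  by_cases hb : ArmC n (cut A x)
  · rw [ind_not_of (not_not.mpr hb), zero_mul]
  · have hd := (hPat n A x ∅ hx').2.1 hb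
    have h1 := hPhi (x = (0, 0)) (onB n x) _ _ hd
    rw [ind_of hb, one_mul, phi_mix]
    linarith

theorem ring_length (x : Vtx) : (ring x).length = 8 := rfl

theorem ring_nodup (x : Vtx) : (ring x).Nodup := by
  obtain ⟨a, b⟩ := x
  simp [ring]
  omega

theorem ring_sub {n : ℕ} {x : Vtx} (hx : x ∈ bxV n) (hB : ¬ onB n x) :
    ring x ⊆ (bxV n).toList.erase x := by
  obtain ⟨a, b⟩ := x
  simp only [bxV, Finset.mem_product, Finset.mem_Icc] at hx
  have h1 : ¬ (a = -n ∨ a = n ∨ b = -n ∨ b = n) := by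
    intro h
    exact hB ⟨⟨⟨hx.1.1, hx.1.2⟩, ⟨hx.2.1, hx.2.2⟩⟩, h⟩
  push Not at h1
  intro v hv
  rw [(Finset.nodup_toList _).mem_erase_iff, Finset.mem_toList]
  simp only [ring, List.mem_cons, List.not_mem_nil, or_false] at hv
  have key : v.1 - a ≤ 1 ∧ a - v.1 ≤ 1 ∧ v.2 - b ≤ 1 ∧ b - v.2 ≤ 1 ∧ v ≠ (a, b) := by
    rcases hv with rfl | rfl | rfl | rfl | rfl | rfl | rfl | rfl <;>
      simp only [ne_eq, Prod.mk.injEq] <;> omega
  refine ⟨key.2.2.2.2, ?_⟩
  simp only [bxV, Finset.mem_product, Finset.mem_Icc]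
  omega

/-- step 1: from independent bonds to the mixture -/
theorem step1 (hHyb : S_Hyb) (hPat : S_Pat) (hPhm : S_Phm) (hFib : S_Fib) (hMod : S_Mod) :
    ∃ r1 : ℝ, r0 < r1 ∧ r1 < 3 / 4 ∧ ∀ (n : ℕ) (B : Cf),
      Ev (fun _ => nu r1) (bxV n).toList (fun A => ind (ArmC n A)) B ≤
        Ev (fun _ => mix) (bxV n).toList (fun A => ind (ArmC n A)) B := by
  obtain ⟨δ, hδ, hε⟩ := hPhm
  obtain ⟨r1, h1, h2, hlaw1, hlaw2, hphi⟩ := hε (δ * (1 / 1000) ^ 8) (by positivity)
  refine ⟨r1, h1, h2, fun n B => ?_⟩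
  have hr1 : 0 ≤ r1 := r0_bounds.1.trans h1.le
  have hr1' : r1 ≤ 1 := by linarith
  apply hHyb (nu r1) mix (bxV n).toList _ B (Finset.nodup_toList _)
  intro x hx κ hκ
  have hx' : x ∈ bxV n := Finset.mem_toList.mp hx
  have hk : ∀ y a, 0 ≤ κ y a := by
    intro y a
    rcases hκ y with h | h
    · rw [h]; exact nu_nonneg hr1 hr1' a
    · rw [h]; exact mix_nonneg a
  have hlaw : ∀ y, Law (1 / 1000) (κ y) := by
    intro y
    rcases hκ y with h | h
    · rw [h]; exact hlaw1
    · rw [h]; exact hlaw2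
  rw [sum_Ev]
  -- the pointwise bound
  let P : Cf → Prop := fun A => ¬ onB n x ∧ ¬ ArmC n (cut A x) ∧ (II n A x).card = 1 ∧
    (JJ n A x).card = 1
  let Q : Cf → Prop := fun A => ¬ (x = (0, 0)) ∧ ¬ onB n x ∧ ¬ ArmC n (cut A x) ∧
    (II n A x).Nonempty ∧ (JJ n A x).Nonempty ∧ 3 ≤ (II n A x).card + (JJ n A x).card
  by_cases hpq : x = (0, 0) ∨ onB n x
  · apply Ev_nonneg hk
    intro A
    rw [sum_arm hPat (nu r1) mix (nu_sum r1) mix_sum n x hx' A]
    by_cases hb : ArmC n (cut A x)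
    · rw [ind_not_of (not_not.mpr hb), zero_mul]
    · have hd := (hPat n A x ∅ hx').2.1 hb
      have h3 := (hphi (x = (0, 0)) (onB n x) _ _ hd).1 (by tauto)
      rw [ind_of hb, one_mul]
      linarith
  · push Not at hpq
    have hpt : ∀ A : Cf, δ * ind (Q A) - δ * (1 / 1000) ^ 8 * ind (P A) ≤
        ∑ a : Om, (mix a - nu r1 a) * ind (ArmC n (Function.update A x a)) := by
      intro A
      rw [sum_arm hPat (nu r1) mix (nu_sum r1) mix_sum n x hx' A]
      by_cases hb : ArmC n (cut A x)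
      · rw [ind_not_of (not_not.mpr hb), zero_mul, ind_not_of (show ¬ Q A from fun h => h.2.2.1 hb)]
        have := ind_nonneg (P A)
        have : 0 ≤ δ * (1 / 1000) ^ 8 * ind (P A) := by positivity
        linarith
      · have hd := (hPat n A x ∅ hx').2.1 hb
        obtain ⟨c1, c2, c3⟩ := hphi (x = (0, 0)) (onB n x) _ _ hd
        rw [ind_of hb, one_mul]
        by_cases hI : II n A x = ∅
        · have h3 := c1 (by tauto)
          rw [ind_not_of (show ¬ Q A from fun h => by
            have := h.2.2.2.1; rw [hI] at this; exact Finset.not_nonempty_empty this),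
            ind_not_of (show ¬ P A from fun h => by
            have := h.2.2.1; rw [hI] at this; simp at this)]
          linarith
        · by_cases hJ : JJ n A x = ∅
          · have h3 := c1 (by tauto)
            rw [ind_not_of (show ¬ Q A from fun h => by
              have := h.2.2.2.2.1; rw [hJ] at this; exact Finset.not_nonempty_empty this),
              ind_not_of (show ¬ P A from fun h => by
              have := h.2.2.2; rw [hJ] at this; simp at this)]
            linarith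
          · have hI' : (II n A x).Nonempty := Finset.nonempty_iff_ne_empty.mpr hI
            have hJ' : (JJ n A x).Nonempty := Finset.nonempty_iff_ne_empty.mpr hJ
            have hI1 := hI'.card_pos
            have hJ1 := hJ'.card_pos
            by_cases h11 : (II n A x).card = 1 ∧ (JJ n A x).card = 1
            · have h3 := c2 h11.1 h11.2
              rw [ind_not_of (show ¬ Q A from fun h => by
                have := h.2.2.2.2.2; omega),
                ind_of (show P A from ⟨hpq.2, hb, h11.1, h11.2⟩)]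
              linarith
            · have h4 : 3 ≤ (II n A x).card + (JJ n A x).card := by omega
              have h3 := c3 hpq.1 hpq.2 hI' hJ' h4
              rw [ind_of (show Q A from ⟨hpq.1, hpq.2, hb, hI', hJ', h4⟩),
                ind_not_of (show ¬ P A from fun h => h11 ⟨h.2.2.1, h.2.2.2⟩)]
              linarith
    refine le_trans ?_ (Ev_mono hk _ hpt B)
    rw [Ev_sub, Ev_smul, Ev_smul]
    have hfib := hFib (1 / 1000) κ ((bxV n).toList.erase x) (ring x) P Q B (by norm_num) hlaw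
      ((Finset.nodup_toList _).erase x) (ring_nodup x) (ring_sub hx' hpq.2) (by
        rintro A ⟨g1, g2, g3, g4⟩
        obtain ⟨A', m1, m2, m3, m4, m5⟩ := hMod n A x hx' g1 g2 g3 g4
        exact ⟨A', m1, hpq.1, g1, m2, m3, m4, m5⟩)
    rw [ring_length] at hfib
    have := mul_le_mul_of_nonneg_left hfib hδ.le
    linarith

/-- the bidirectional 3-neighbour graph percolates -/
theorem main (hHyb : S_Hyb) (hPat : S_Pat) (hPhi : S_Phi) (hPhm : S_Phm) (hFib : S_Fib)
    (hMod : S_Mod) (hProd : S_Prod) (hInf : S_Inf) :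
    0 < law3.real {S | {v | (bnG S).Reachable (0, 0) v}.Infinite} := by
  obtain ⟨r1, h1, h2, h3⟩ := step1 hHyb hPat hPhm hFib hMod
  obtain ⟨hr0, hr1, hr2⟩ := r0_bounds
  have hr1pos : 0 ≤ r1 := hr0.trans h1.le
  have hp : (1 / 2 : ℝ) < r1 ^ 2 := by rw [← hr2]; exact pow_lt_pow_left₀ h1 hr0 two_ne_zero
  have hp1 : r1 ^ 2 ≤ 1 := by nlinarith
  obtain ⟨c, hc, h⟩ := fin_bound
  have hlow : ∀ n : ℕ, c * Real.sqrt (r1 ^ 2 - 1 / 2) ≤ arm (r1 ^ 2) n := fun n =>
    h (r1 ^ 2) hp.le hp1 n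
  have hpos : 0 < c * Real.sqrt (r1 ^ 2 - 1 / 2) :=
    mul_pos hc (Real.sqrt_pos.mpr (by linarith))
  refine lt_of_lt_of_le hpos (hInf _ fun n => ?_)
  calc c * Real.sqrt (r1 ^ 2 - 1 / 2) ≤ arm (r1 ^ 2) n := hlow n
    _ = Ev (fun _ => nu r1) (bxV n).toList (fun A => ind (ArmC n A)) (fun _ => ∅) :=
        (hProd r1 n _ hr1pos (by linarith)).symm
    _ ≤ Ev (fun _ => mix) (bxV n).toList (fun A => ind (ArmC n A)) (fun _ => ∅) := h3 n _
    _ ≤ _ := step2 hHyb hPat hPhi n _

end Q121.BN
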