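import Pool.Agent.Q121.BN.Stm

/-! # Project BN: basic lemmas on `Ev` (proved) -/

open H974

namespace Q121.BN

variable {κ : Vtx → Om → ℝ}

theorem Ev_congr' {L : List Vtx} {f g : Cf → ℝ} (h : ∀ A, f A = g A) (B : Cf) :
    Ev κ L f B = Ev κ L g B := by
  have : f = g := funext h
  rw [this]

theorem Ev_add (L : List Vtx) (f g : Cf → ℝ) (B : Cf) :
    Ev κ L (fun A => f A + g A) B = Ev κ L f B + Ev κ L g B := by
  induction L generalizing B with
  | nil => rfl
  | cons x L ih =>
    simp only [Ev, ih]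
    rw [← Finset.sum_add_distrib]
    exact Finset.sum_congr rfl fun a _ => by ring

theorem Ev_smul (L : List Vtx) (c : ℝ) (f : Cf → ℝ) (B : Cf) :
    Ev κ L (fun A => c * f A) B = c * Ev κ L f B := by
  induction L generalizing B with
  | nil => rfl
  | cons x L ih =>
    simp only [Ev, ih]
    rw [Finset.mul_sum]
    exact Finset.sum_congr rfl fun a _ => by ring

theorem Ev_sub (L : List Vtx) (f g : Cf → ℝ) (B : Cf) :
    Ev κ L (fun A => f A - g A) B = Ev κ L f B - Ev κ L g B := by
  induction L generalizing B with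
  | nil => rfl
  | cons x L ih =>
    simp only [Ev, ih]
    rw [← Finset.sum_sub_distrib]
    exact Finset.sum_congr rfl fun a _ => by ring

theorem Ev_zero (L : List Vtx) (B : Cf) : Ev κ L (fun _ => 0) B = 0 := by
  induction L generalizing B with
  | nil => rfl
  | cons x L ih => simp only [Ev, ih]; simp

theorem Ev_sum {ι : Type*} (s : Finset ι) (L : List Vtx) (f : ι → Cf → ℝ) (B : Cf) :
    Ev κ L (fun A => ∑ i ∈ s, f i A) B = ∑ i ∈ s, Ev κ L (f i) B := by
  classical
  induction s using Finset.induction_on with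
  | empty => simp only [Finset.sum_empty]; exact Ev_zero L B
  | insert a s ha ih =>
    rw [Finset.sum_insert ha, ← ih, ← Ev_add]
    exact Ev_congr' (fun A => Finset.sum_insert ha) B

theorem Ev_mono (hκ : ∀ x a, 0 ≤ κ x a) (L : List Vtx) {f g : Cf → ℝ} (h : ∀ A, f A ≤ g A)
    (B : Cf) : Ev κ L f B ≤ Ev κ L g B := by
  induction L generalizing B with
  | nil => exact h B
  | cons x L ih =>
    simp only [Ev]
    exact Finset.sum_le_sum fun a _ => mul_le_mul_of_nonneg_left (ih _) (hκ x a)

theorem Ev_nonneg (hκ : ∀ x a, 0 ≤ κ x a) (L : List Vtx) {f : Cf → ℝ} (h : ∀ A, 0 ≤ f A)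
    (B : Cf) : 0 ≤ Ev κ L f B := by
  have := Ev_mono hκ L (f := fun _ => 0) (g := f) h B
  rwa [Ev_zero] at this

theorem Ev_const (hκ : ∀ x, ∑ a : Om, κ x a = 1) (L : List Vtx) (c : ℝ) (B : Cf) :
    Ev κ L (fun _ => c) B = c := by
  induction L generalizing B with
  | nil => rfl
  | cons x L ih => simp only [Ev, ih]; rw [← Finset.sum_mul, hκ, one_mul]

/-- the update can be moved into the function -/
theorem Ev_update (L : List Vtx) (f : Cf → ℝ) {x : Vtx} (hx : x ∉ L) (a : Om) (B : Cf) :
    Ev κ L f (Function.update B x a) = Ev κ L (fun A => f (Function.update A x a)) B := by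
  induction L generalizing B with
  | nil => rfl
  | cons y L ih =>
    have hxy : x ≠ y := fun h => hx (by rw [h]; exact List.mem_cons_self)
    have hx' : x ∉ L := fun h => hx (List.mem_cons_of_mem _ h)
    simp only [Ev]
    refine Finset.sum_congr rfl fun b _ => ?_
    rw [Function.update_comm hxy, ih hx']

theorem Ev_cons (x : Vtx) (L : List Vtx) (f : Cf → ℝ) (hx : x ∉ L) (B : Cf) :
    Ev κ (x :: L) f B = ∑ a : Om, κ x a * Ev κ L (fun A => f (Function.update A x a)) B := by
  simp only [Ev]
  exact Finset.sum_congr rfl fun a _ => by rw [Ev_update L f hx]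

theorem Ev_swap (x y : Vtx) (L : List Vtx) (f : Cf → ℝ) (hxy : x ≠ y) (B : Cf) :
    Ev κ (x :: y :: L) f B = Ev κ (y :: x :: L) f B := by
  simp only [Ev]
  simp only [Finset.mul_sum]
  rw [Finset.sum_comm]
  refine Finset.sum_congr rfl fun a _ => Finset.sum_congr rfl fun b _ => ?_
  rw [Function.update_comm hxy]
  ring

theorem Ev_perm {L L' : List Vtx} (h : L.Perm L') (hL : L.Nodup) (f : Cf → ℝ) (B : Cf) :
    Ev κ L f B = Ev κ L' f B := by
  induction h generalizing B with
  | nil => rfl
  | cons x h ih =>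
    simp only [Ev]
    exact Finset.sum_congr rfl fun a _ => by rw [ih (List.nodup_cons.mp hL).2]
  | swap x y l =>
    apply Ev_swap
    intro h
    rw [h] at hL
    exact (List.nodup_cons.mp hL).1 List.mem_cons_self
  | trans h1 h2 ih1 ih2 => rw [ih1 hL, ih2 (h1.nodup_iff.mp hL)]

theorem Ev_append (L L' : List Vtx) (f : Cf → ℝ) (B : Cf) :
    Ev κ (L ++ L') f B = Ev κ L (fun A => Ev κ L' f A) B := by
  induction L generalizing B with
  | nil => rfl
  | cons x L ih => simp only [List.cons_append, Ev, ih]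

/-- only the laws of the sites in the list matter -/
theorem Ev_law {κ κ' : Vtx → Om → ℝ} (L : List Vtx) (h : ∀ x ∈ L, κ x = κ' x) (f : Cf → ℝ)
    (B : Cf) : Ev κ L f B = Ev κ' L f B := by
  induction L generalizing B with
  | nil => rfl
  | cons x L ih =>
    simp only [Ev]
    refine Finset.sum_congr rfl fun a _ => ?_
    rw [h x List.mem_cons_self, ih (fun y hy => h y (List.mem_cons_of_mem _ hy))]

end Q121.BN
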