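import Pool.Agent.H974R2.Infinite

/-!
# Project BN (MP_627919_pr): the bidirectional 3-neighbour graph on `ℤ²` percolates

Definitions (finite volume).
-/

open H974

namespace Q121.BN

/-- sets of directions -/
abbrev Om := Finset (Fin 4)

/-- the four directions -/
def dir (i : Fin 4) : ℤ × ℤ :=
  match i with
  | 0 => (1, 0)
  | 1 => (0, 1)
  | 2 => (-1, 0)
  | 3 => (0, -1)

/-- opposite direction -/
def op (i : Fin 4) : Fin 4 := i + 2

/-- neighbour -/
def nb (x : Vtx) (i : Fin 4) : Vtx := (x.1 + (dir i).1, x.2 + (dir i).2)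

/-- configurations: retained directions of every vertex -/
abbrev Cf := Vtx → Om

/-- the open edges: both endpoints retain the edge -/
def opn (A : Cf) : Set Edg :=
  {e | (if e.2.2 then (0 : Fin 4) else 1) ∈ A (src e) ∧ (if e.2.2 then (2 : Fin 4) else 3) ∈ A (tgt e)}

/-- vertices of the box `[-n,n]^2` -/
noncomputable def bxV (n : ℕ) : Finset Vtx :=
  Finset.Icc (-(n : ℤ)) n ×ˢ Finset.Icc (-(n : ℤ)) n

/-- the origin is connected to the boundary of the box -/
def ArmC (n : ℕ) (A : Cf) : Prop := ∃ v, onB n v ∧ Reach (opn A ∩ ↑(boxE n)) (0, 0) v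

/-- expectation of `f` over the configurations which agree with `B` off the list `L` and are
independent with laws `κ x` on `L` -/
noncomputable def Ev (κ : Vtx → Om → ℝ) : List Vtx → (Cf → ℝ) → Cf → ℝ
  | [], f, B => f B
  | x :: L, f, B => ∑ a : Om, κ x a * Ev κ L f (Function.update B x a)

/-- a law with all weights at least `w` -/
def Law (w : ℝ) (l : Om → ℝ) : Prop := (∀ a, w ≤ l a) ∧ ∑ a, l a = 1

/-- the law of the 3-neighbour model -/
noncomputable def mu3 (a : Om) : ℝ := if a.card = 3 then 1 / 4 else 0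

/-- independent retention with probability `r` -/
noncomputable def nu (r : ℝ) (a : Om) : ℝ := r ^ a.card * (1 - r) ^ (4 - a.card)

/-- the critical retention probability -/
noncomputable def r0 : ℝ := Real.sqrt (1 / 2)

/-- the mixture -/
noncomputable def mix (a : Om) : ℝ := (1 / 2) * nu r0 a + (1 / 2) * mu3 a

/-- the configuration without the vertex `x` -/
noncomputable def cut (A : Cf) (x : Vtx) : Cf := Function.update A x ∅

open Classical in
/-- directions at `x` leading to the cluster of the origin, in the configuration without `x` -/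
noncomputable def II (n : ℕ) (A : Cf) (x : Vtx) : Om :=
  Finset.univ.filter (fun i => nb x i ∈ bxV n ∧ op i ∈ A (nb x i) ∧
    Reach (opn (cut A x) ∩ ↑(boxE n)) (0, 0) (nb x i))

open Classical in
/-- directions at `x` leading to the boundary of the box, in the configuration without `x` -/
noncomputable def JJ (n : ℕ) (A : Cf) (x : Vtx) : Om :=
  Finset.univ.filter (fun i => nb x i ∈ bxV n ∧ op i ∈ A (nb x i) ∧
    ∃ w, onB n w ∧ Reach (opn (cut A x) ∩ ↑(boxE n)) (nb x i) w)

/-- probability that a random set with law `l` meets both `I` and `J` (`p`: no need to meet `I`,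
`q`: no need to meet `J`) -/
noncomputable def phi (l : Om → ℝ) (p q : Prop) (I J : Om) : ℝ :=
  ∑ a : Om, l a * ind ((p ∨ (a ∩ I).Nonempty) ∧ (q ∨ (a ∩ J).Nonempty))

/-- the eight vertices around `x` -/
def ring (x : Vtx) : List Vtx :=
  [(x.1 + 1, x.2), (x.1 + 1, x.2 + 1), (x.1, x.2 + 1), (x.1 - 1, x.2 + 1), (x.1 - 1, x.2),
    (x.1 - 1, x.2 - 1), (x.1, x.2 - 1), (x.1 + 1, x.2 - 1)]

end Q121.BN
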