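import Pool.Agent.Q121.BN.Basic

/-! # Project BN: JOBS HYB and FIB (helper121) -/

open H974

namespace Q121.BN

theorem hyb : S_Hyb := by
  classical
  intro l l' L f B hL h
  have key : ∀ T : List Vtx, T.Nodup → T ⊆ L →
      Ev (fun _ => l) L f B ≤ Ev (fun y => if y ∈ T then l' else l) L f B := by
    intro T
    induction T with
    | nil =>
      intro _ _
      simp
    | cons x T ih =>
      intro hT hTL
      refine (ih (List.nodup_cons.mp hT).2 (fun y hy => hTL (List.mem_cons_of_mem _ hy))).trans ?_
      have hxT : x ∉ T := (List.nodup_cons.mp hT).1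
      have hxL : x ∈ L := hTL List.mem_cons_self
      have hp : L.Perm (x :: L.erase x) := List.perm_cons_erase hxL
      have hx' : x ∉ L.erase x := List.Nodup.not_mem_erase hL
      rw [Ev_perm hp hL, Ev_perm hp hL, Ev_cons _ _ _ hx', Ev_cons _ _ _ hx']
      have e1 := h x hxL (fun y => if y ∈ T then l' else l) (by
        intro y
        show (if y ∈ T then l' else l) = l ∨ (if y ∈ T then l' else l) = l'
        split_ifs
        · exact Or.inr rfl
        · exact Or.inl rfl)
      have e2 : ∀ a : Om, Ev (fun y => if y ∈ x :: T then l' else l) (L.erase x)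
          (fun A => f (Function.update A x a)) B =
          Ev (fun y => if y ∈ T then l' else l) (L.erase x)
          (fun A => f (Function.update A x a)) B := by
        intro a
        apply Ev_law
        intro y hy
        have : y ≠ x := fun hh => hx' (hh ▸ hy)
        simp [this]
      rw [← sub_nonneg, ← Finset.sum_sub_distrib]
      refine e1.trans_eq (Finset.sum_congr rfl fun a _ => ?_)
      rw [e2 a]
      simp only [List.mem_cons_self, if_true, if_neg hxT]
      ring
  refine (key L hL (fun _ h => h)).trans_eq ?_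
  apply Ev_law
  intro y hy
  simp [hy]

variable {κ : Vtx → Om → ℝ}

theorem Ev_congr_on (R : List Vtx) {f g : Cf → ℝ} (A : Cf)
    (h : ∀ A', (∀ v, v ∉ R → A' v = A v) → f A' = g A') : Ev κ R f A = Ev κ R g A := by
  induction R generalizing A with
  | nil => exact h A (fun _ _ => rfl)
  | cons x R ih =>
    simp only [Ev]
    refine Finset.sum_congr rfl fun a _ => ?_
    rw [ih (Function.update A x a)]
    intro A' hA'
    apply h
    intro v hv
    rw [List.mem_cons, not_or] at hv
    rw [hA' v hv.2, Function.update_of_ne hv.1]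

theorem Ev_lower {w : ℝ} (hw : 0 < w) (hκ : ∀ x a, w ≤ κ x a) (R : List Vtx) {f : Cf → ℝ}
    (hf : ∀ A, 0 ≤ f A) (A A' : Cf) (h : ∀ v, v ∉ R → A' v = A v) :
    w ^ R.length * f A' ≤ Ev κ R f A := by
  induction R generalizing A with
  | nil =>
    have : A' = A := funext fun v => h v (by simp)
    rw [this]
    simp [Ev]
  | cons x R ih =>
    have hκ0 : ∀ x a, 0 ≤ κ x a := fun x a => hw.le.trans (hκ x a)
    have e1 := ih (Function.update A x (A' x)) (by
      intro v hv
      by_cases hvx : v = x
      · rw [hvx, Function.update_self]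
      · rw [Function.update_of_ne hvx]
        exact h v (by rw [List.mem_cons, not_or]; exact ⟨hvx, hv⟩))
    simp only [Ev]
    calc w ^ (x :: R).length * f A' = w * (w ^ R.length * f A') := by
          rw [List.length_cons, pow_succ]; ring
      _ ≤ κ x (A' x) * Ev κ R f (Function.update A x (A' x)) :=
          mul_le_mul (hκ x _) e1 (mul_nonneg (pow_nonneg hw.le _) (hf _)) (hκ0 _ _)
      _ ≤ _ := Finset.single_le_sum
          (f := fun a => κ x a * Ev κ R f (Function.update A x a))
          (fun a _ => mul_nonneg (hκ0 x a) (Ev_nonneg hκ0 R hf _)) (Finset.mem_univ _)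

theorem fib : S_Fib := by
  classical
  intro w κ L R P Q B hw hκ hL hR hRL h
  have hκ0 : ∀ x a, 0 ≤ κ x a := fun x a => hw.le.trans ((hκ x).1 a)
  have hp : L.Perm (L.filter (fun v => v ∉ R) ++ R) := by
    rw [List.perm_ext_iff_of_nodup hL]
    · intro v
      simp only [List.mem_append, List.mem_filter, decide_eq_true_eq]
      constructor
      · intro hv
        by_cases hvR : v ∈ R
        · exact Or.inr hvR
        · exact Or.inl ⟨hv, hvR⟩
      · rintro (hv | hv)
        · exact hv.1
        · exact hRL hv
    · rw [List.nodup_append]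
      refine ⟨hL.filter _, hR, ?_⟩
      intro a ha b hb hab
      simp only [List.mem_filter, decide_eq_true_eq] at ha
      exact ha.2 (hab ▸ hb)
  rw [Ev_perm hp hL, Ev_perm hp hL, Ev_append, Ev_append, ← Ev_smul]
  apply Ev_mono hκ0
  intro A
  have hn : ∀ S : Cf → Prop, ∀ A, 0 ≤ ind (S A) := by
    intro S A
    exact ind_nonneg _
  have hle : ∀ S : Cf → Prop, ∀ A, ind (S A) ≤ 1 := by
    intro S A
    exact ind_le_one _
  by_cases hex : ∃ A1, (∀ v, v ∉ R → A1 v = A v) ∧ P A1
  · obtain ⟨A1, h1, h2⟩ := hex
    obtain ⟨A2, h3, h4⟩ := h A1 h2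
    have e1 := Ev_lower hw (fun x a => (hκ x).1 a) R (f := fun A => ind (Q A)) (hn Q) A A2
      (fun v hv => (h3 v hv).trans (h1 v hv))
    rw [ind_of h4, mul_one] at e1
    have e2 : Ev κ R (fun A => ind (P A)) A ≤ 1 := by
      have := Ev_mono hκ0 R (f := fun A => ind (P A)) (g := fun _ => 1) (hle P) A
      rwa [Ev_const (fun x => (hκ x).2)] at this
    calc w ^ R.length * Ev κ R (fun A => ind (P A)) A ≤ w ^ R.length * 1 :=
          mul_le_mul_of_nonneg_left e2 (pow_nonneg hw.le _)
      _ = w ^ R.length := mul_one _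
      _ ≤ _ := e1
  · have e1 : Ev κ R (fun A => ind (P A)) A = Ev κ R (fun _ => 0) A := by
      apply Ev_congr_on
      intro A' hA'
      exact ind_not_of (fun hh => hex ⟨A', hA', hh⟩)
    rw [e1, Ev_zero, mul_zero]
    exact Ev_nonneg hκ0 R (hn Q) A

end Q121.BN
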