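import Pool.Agent.Q121.BN.Hyb

/-! # Project BN: JOB INF (helper121) -/

open H974 MeasureTheory

namespace Q121.BN

/-- the configuration of a point of the probability space -/
def cf (S : ℤ × ℤ → Om3) : Cf := fun x => (S x).1

theorem bnG_adj (S : ℤ × ℤ → Om3) (u v : ℤ × ℤ) :
    (bnG S).Adj u v ↔ Adj (opn (cf S)) u v := by
  constructor
  · have fwd : ∀ u v : Vtx, ∀ i : Fin 4, (i = 0 ∨ i = 1) → i ∈ (S u).1 → op i ∈ (S v).1 →
        v = nb u i → Adj (opn (cf S)) u v := by
      rintro ⟨x, y⟩ v i hi h1 h2 rfl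
      rcases hi with rfl | rfl
      · refine ⟨(x, y, true), ?_, Or.inl ⟨rfl, ?_⟩⟩
        · simp only [opn, Set.mem_ofPred_eq, if_true, src_mk, tgt_true]
          refine ⟨h1, ?_⟩
          simpa [nb, dir, op, cf] using h2
        · simp [nb, dir]
      · refine ⟨(x, y, false), ?_, Or.inl ⟨rfl, ?_⟩⟩
        · simp only [opn, Set.mem_ofPred_eq, Bool.false_eq_true, if_false, src_mk, tgt_false]
          refine ⟨h1, ?_⟩
          simpa [nb, dir, op, cf] using h2
        · simp [nb, dir]
    rintro ⟨i, h1, h2, h3⟩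
    by_cases hi : i = 0 ∨ i = 1
    · exact fwd u v i hi h1 h2 h3
    · apply Adj.symm
      have hi' : op i = 0 ∨ op i = 1 := by
        revert hi; fin_cases i <;> decide
      refine fwd v u (op i) hi' h2 ?_ ?_
      · have : op (op i) = i := by fin_cases i <;> rfl
        rw [this]; exact h1
      · rw [h3]
        fin_cases i <;> simp [nb, dir, op]
  · rintro ⟨e, he1, hc⟩
    obtain ⟨x, y, _ | _⟩ := e
    · simp only [opn, Set.mem_ofPred_eq, Bool.false_eq_true, if_false, src_mk, tgt_false] at he1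
      simp only [src_mk, tgt_false] at hc
      have base : (bnG S).Adj (x, y) (x, y + 1) :=
        ⟨1, he1.1, he1.2, by simp [nb, dir]⟩
      rcases hc with ⟨rfl, rfl⟩ | ⟨rfl, rfl⟩
      · exact base
      · exact base.symm
    · simp only [opn, Set.mem_ofPred_eq, if_true, src_mk, tgt_true] at he1
      simp only [src_mk, tgt_true] at hc
      have base : (bnG S).Adj (x, y) (x + 1, y) :=
        ⟨0, he1.1, he1.2, by simp [nb, dir]⟩
      rcases hc with ⟨rfl, rfl⟩ | ⟨rfl, rfl⟩
      · exact base
      · exact base.symm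

theorem bnG_reach (S : ℤ × ℤ → Om3) (u v : ℤ × ℤ) :
    (bnG S).Reachable u v ↔ Reach (opn (cf S)) u v := by
  rw [SimpleGraph.reachable_iff_reflTransGen]
  have : (bnG S).Adj = Adj (opn (cf S)) := by
    funext u v
    exact propext (bnG_adj S u v)
  rw [this]
  rfl

theorem armC_anti {n m : ℕ} (h : n ≤ m) {A : Cf} (hA : ArmC m A) : ArmC n A := by
  obtain ⟨v, hv, hr⟩ := hA
  have h' : (n:ℤ) ≤ m := by exact_mod_cast h
  obtain ⟨w, k1, k2, k3⟩ := first_exit (G := opn A ∩ ↑(boxE m)) (a := -n) (b := n) (c := -n)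
    (d := n) (u := (0, 0)) (v := v) (by unfold inR; simp) hr (by unfold onB at hv; omega)
  refine ⟨w, ⟨k1, k2⟩, k3.mono ?_⟩
  rintro e ⟨⟨k4, -⟩, k5⟩
  exact ⟨k4, k5⟩

theorem inf_iff (S : ℤ × ℤ → Om3) :
    {v | (bnG S).Reachable (0, 0) v}.Infinite ↔ ∀ n, ArmC n (cf S) := by
  constructor
  · intro h n
    have hfin : (Set.Icc (-(n:ℤ)) n ×ˢ Set.Icc (-(n:ℤ)) n).Finite :=
      (Set.finite_Icc _ _).prod (Set.finite_Icc _ _)
    obtain ⟨v, hv, hv'⟩ := h.exists_notMem_finite hfin
    have hr : Reach (opn (cf S)) (0, 0) v := (bnG_reach S _ _).mp hv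
    obtain ⟨w, k1, k2, k3⟩ := first_exit (a := -n) (b := n) (c := -n) (d := n)
      (by unfold inR; simp) hr (by
        simp only [Set.mem_prod, Set.mem_Icc] at hv'
        omega)
    exact ⟨w, ⟨k1, k2⟩, k3⟩
  · intro h hfin
    have hb : ((fun v : ℤ × ℤ => |v.1| + |v.2|) ''
        {v | (bnG S).Reachable (0, 0) v}).Finite := hfin.image _
    obtain ⟨N, hN⟩ := hb.bddAbove
    obtain ⟨v, hv, hr⟩ := h (N.toNat + 1)
    have hmem : v ∈ {v | (bnG S).Reachable (0, 0) v} :=
      (bnG_reach S _ _).mpr (hr.mono Set.inter_subset_left)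
    have h1 : |v.1| + |v.2| ≤ N := hN (Set.mem_image_of_mem _ hmem)
    have h2 := abs_nonneg v.1
    have h3 := abs_nonneg v.2
    have h4 := le_abs_self v.1
    have h5 := le_abs_self v.2
    have h6 := neg_abs_le v.1
    have h7 := neg_abs_le v.2
    unfold onB at hv
    have h8 : N ≤ N.toNat := Int.self_le_toNat N
    push_cast at hv
    omega

/-- `Q` depends on the coordinates in `L` only -/
def Dep (L : List Vtx) (Q : Cf → Prop) : Prop :=
  ∀ A A' : Cf, (∀ v ∈ L, A v = A' v) → (Q A ↔ Q A')

theorem meas_dep (L : List Vtx) (Q : Cf → Prop) (hQ : Dep L Q) :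
    MeasurableSet {S : ℤ × ℤ → Om3 | Q (cf S)} := by
  classical
  have : {S : ℤ × ℤ → Om3 | Q (cf S)} =
      (fun S : ℤ × ℤ → Om3 => fun x : {x // x ∈ L} => S x.1) ⁻¹'
        ((fun S : ℤ × ℤ → Om3 => fun x : {x // x ∈ L} => S x.1) '' {S | Q (cf S)}) := by
    ext S
    constructor
    · intro h
      exact ⟨S, h, rfl⟩
    · rintro ⟨S', h', he⟩
      refine (hQ (cf S) (cf S') ?_).mpr h'
      intro v hv
      have := congrFun he ⟨v, hv⟩
      simp only at this
      simp only [cf, this]
  rw [this]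
  apply MeasurableSet.preimage
  · exact Set.Finite.measurableSet (Set.toFinite _)
  · exact measurable_pi_lambda _ (fun x => measurable_pi_apply _)

instance : IsProbabilityMeasure law3 := by
  unfold law3; infer_instance

theorem card_Om3 : Fintype.card Om3 = 4 := by decide

theorem unif_apply (c : Om) :
    ((PMF.uniformOfFintype Om3).toMeasure {b : Om3 | b.1 = c}).toReal = mu3 c := by
  unfold mu3
  split_ifs with h
  · have : {b : Om3 | b.1 = c} = {⟨c, h⟩} := by
      ext b
      simp only [Set.mem_ofPred_eq, Set.mem_singleton_iff]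
      exact ⟨fun hh => Subtype.ext hh, fun hh => by rw [hh]⟩
    rw [this, PMF.toMeasure_apply_singleton _ _ MeasurableSet.of_discrete,
      PMF.uniformOfFintype_apply, card_Om3]
    norm_num
  · have : {b : Om3 | b.1 = c} = ∅ := by
      ext b
      simp only [Set.mem_ofPred_eq, Set.mem_empty_iff_false, iff_false]
      intro hh
      exact h (hh ▸ b.2)
    rw [this]
    simp

theorem law_cyl (M : List Vtx) (B : Cf) (hM : M.Nodup) :
    law3.real {S | ∀ y ∈ M, cf S y = B y} = (M.map (fun y => mu3 (B y))).prod := by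
  classical
  have e1 : {S : ℤ × ℤ → Om3 | ∀ y ∈ M, cf S y = B y} =
      Set.pi (↑(M.toFinset) : Set Vtx) (fun y => {b : Om3 | b.1 = B y}) := by
    ext S
    simp only [Set.mem_ofPred_eq, Set.mem_pi, Finset.mem_coe, List.mem_toFinset, cf]
  rw [e1, measureReal_def]
  unfold law3
  rw [Measure.infinitePi_pi _ (fun _ _ => MeasurableSet.of_discrete), ENNReal.toReal_prod]
  rw [List.prod_toFinset _ hM]
  congr 1
  exact List.map_congr_left (fun y _ => unif_apply (B y))

theorem law_ev (L : List Vtx) : ∀ (M : List Vtx) (B : Cf) (Q : Cf → Prop), (M ++ L).Nodup →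
    Dep (M ++ L) Q →
    law3.real {S | (∀ y ∈ M, cf S y = B y) ∧ Q (cf S)} =
      (M.map (fun y => mu3 (B y))).prod * Ev (fun _ => mu3) L (fun A => ind (Q A)) B := by
  classical
  induction L with
  | nil =>
    intro M B Q hM hQ
    rw [List.append_nil] at hM hQ
    have e1 : {S : ℤ × ℤ → Om3 | (∀ y ∈ M, cf S y = B y) ∧ Q (cf S)} =
        {S | (∀ y ∈ M, cf S y = B y) ∧ Q B} := by
      ext S
      simp only [Set.mem_ofPred_eq]
      constructor
      · rintro ⟨h1, h2⟩
        exact ⟨h1, (hQ _ _ h1).mp h2⟩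
      · rintro ⟨h1, h2⟩
        exact ⟨h1, (hQ _ _ h1).mpr h2⟩
    rw [e1]
    simp only [Ev]
    by_cases hB : Q B
    · simp only [hB, and_true]
      rw [law_cyl M B hM, ind_of trivial, mul_one]
    · simp only [hB, and_false]
      rw [ind_not_of (fun h => h)]
      simp
  | cons x L ih =>
    intro M B Q hM hQ
    have hperm : (M ++ x :: L).Perm ((x :: M) ++ L) := List.perm_middle
    have hM' : ((x :: M) ++ L).Nodup := hperm.nodup_iff.mp hM
    have hxM : x ∉ M := by
      intro h
      have := (List.nodup_cons.mp (List.cons_append ▸ hM')).1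
      exact this (List.mem_append_left _ h)
    have hne' : ∀ y ∈ M, y ≠ x := fun y hy h => by
      rw [h] at hy
      exact hxM hy
    have hQ' : Dep ((x :: M) ++ L) Q := by
      intro A A' h
      exact hQ A A' (fun v hv => h v (hperm.mem_iff.mp hv))
    have e1 : {S : ℤ × ℤ → Om3 | (∀ y ∈ M, cf S y = B y) ∧ Q (cf S)} =
        ⋃ a ∈ (Finset.univ : Finset Om), {S : ℤ × ℤ → Om3 |
          (∀ y ∈ x :: M, cf S y = Function.update B x a y) ∧ Q (cf S)} := by
      ext S
      simp only [Set.mem_ofPred_eq, Set.mem_iUnion, Finset.mem_univ, exists_prop, true_and]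
      constructor
      · rintro ⟨h1, h2⟩
        refine ⟨cf S x, ?_, h2⟩
        intro y hy
        rcases List.mem_cons.mp hy with rfl | hy
        · rw [Function.update_self]
        · rw [Function.update_of_ne (hne' y hy)]
          exact h1 y hy
      · rintro ⟨a, h1, h2⟩
        refine ⟨?_, h2⟩
        intro y hy
        have := h1 y (List.mem_cons_of_mem _ hy)
        rwa [Function.update_of_ne (hne' y hy)] at this
    rw [e1, measureReal_biUnion_finset]
    · simp only [Ev, Finset.mul_sum]
      refine Finset.sum_congr rfl fun a _ => ?_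
      rw [ih (x :: M) (Function.update B x a) Q hM' hQ', List.map_cons, List.prod_cons,
        Function.update_self]
      have : M.map (fun y => mu3 (Function.update B x a y)) = M.map (fun y => mu3 (B y)) := by
        apply List.map_congr_left
        intro y hy
        rw [Function.update_of_ne (hne' y hy)]
      rw [this]
      ring
    · intro a _ b _ hne
      rw [Function.onFun, Set.disjoint_left]
      intro S h1 h2
      have h3 := h1.1 x List.mem_cons_self
      have h4 := h2.1 x List.mem_cons_self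
      rw [Function.update_self] at h3 h4
      exact hne (h3.symm.trans h4)
    · intro a _
      apply meas_dep ((x :: M) ++ L) (fun A => (∀ y ∈ x :: M, A y = Function.update B x a y) ∧ Q A)
      intro A A' h
      constructor
      · rintro ⟨h1, h2⟩
        refine ⟨fun y hy => ?_, (hQ' A A' h).mp h2⟩
        rw [← h y (List.mem_append_left _ hy)]; exact h1 y hy
      · rintro ⟨h1, h2⟩
        refine ⟨fun y hy => ?_, (hQ' A A' h).mpr h2⟩
        rw [h y (List.mem_append_left _ hy)]; exact h1 y hy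

theorem dep_arm (n : ℕ) : Dep (bxV n).toList (ArmC n) := by
  have key : ∀ A A' : Cf, (∀ v ∈ (bxV n).toList, A v = A' v) → ArmC n A → ArmC n A' := by
    rintro A A' h ⟨v, hv, hr⟩
    refine ⟨v, hv, hr.mono ?_⟩
    rintro e ⟨he1, he2⟩
    refine ⟨?_, he2⟩
    have hmem : src e ∈ (bxV n).toList ∧ tgt e ∈ (bxV n).toList := by
      rw [Finset.mem_toList, Finset.mem_toList]
      obtain ⟨x, y, _ | _⟩ := e
      · have he2' : ((x, y, false) : Edg) ∈ RE (-(n : ℤ)) n (-(n : ℤ)) n := he2
        rw [mem_RE_false] at he2'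
        simp only [src_mk, tgt_false, bxV, Finset.mem_product, Finset.mem_Icc]
        omega
      · have he2' : ((x, y, true) : Edg) ∈ RE (-(n : ℤ)) n (-(n : ℤ)) n := he2
        rw [mem_RE_true] at he2'
        simp only [src_mk, tgt_true, bxV, Finset.mem_product, Finset.mem_Icc]
        omega
    simp only [opn, Set.mem_ofPred_eq] at he1 ⊢
    rw [← h _ hmem.1, ← h _ hmem.2]
    exact he1
  intro A A' h
  exact ⟨key A A' h, key A' A (fun v hv => (h v hv).symm)⟩

theorem law_arm (n : ℕ) : law3.real {S | ArmC n (cf S)} =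
    Ev (fun _ => mu3) (bxV n).toList (fun A => ind (ArmC n A)) (fun _ => ∅) := by
  have := law_ev (bxV n).toList [] (fun _ => ∅) (ArmC n) (by
    rw [List.nil_append]; exact Finset.nodup_toList _) (by
    rw [List.nil_append]; exact dep_arm n)
  simpa using this

theorem inf : S_Inf := by
  intro c hc
  have e : {S | {v | (bnG S).Reachable (0, 0) v}.Infinite} =
      ⋂ n, {S : ℤ × ℤ → Om3 | ArmC n (cf S)} := by
    ext S
    rw [Set.mem_iInter]
    exact inf_iff S
  rw [e]
  have h1 : Filter.Tendsto (fun n => law3 {S : ℤ × ℤ → Om3 | ArmC n (cf S)}) Filter.atTop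
      (nhds (law3 (⋂ n, {S : ℤ × ℤ → Om3 | ArmC n (cf S)}))) := by
    apply tendsto_measure_iInter_atTop
    · intro n
      exact (meas_dep _ (ArmC n) (dep_arm n)).nullMeasurableSet
    · intro n m hnm S hS
      exact armC_anti hnm hS
    · exact ⟨0, measure_ne_top _ _⟩
  have h2 : Filter.Tendsto (fun n => law3.real {S : ℤ × ℤ → Om3 | ArmC n (cf S)}) Filter.atTop
      (nhds (law3.real (⋂ n, {S : ℤ × ℤ → Om3 | ArmC n (cf S)}))) :=
    (ENNReal.tendsto_toReal (measure_ne_top _ _)).comp h1
  apply ge_of_tendsto' h2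
  intro n
  rw [law_arm]
  exact hc n

end Q121.BN
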