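import Pool.Agent.Q121.BN.Pat

/-! # Project BN: JOB MOD (helper121) -/

open H974

namespace Q121.BN

theorem adj_cut {n : ℕ} {A : Cf} {x u v : Vtx} :
    AdjC n (cut A x) u v ↔ u ≠ x ∧ v ≠ x ∧ AdjC n A u v := by
  constructor
  · intro h
    have hu : u ≠ x := fun hh => not_adj_cut (hh ▸ h)
    have hv : v ≠ x := fun hh => not_adj_cut' (hh ▸ h)
    refine ⟨hu, hv, ?_⟩
    obtain ⟨i, h1, h2, h3⟩ := h
    rw [cut_ne A hu] at h1
    rw [cut_ne A hv] at h2
    exact ⟨i, h1, h2, h3⟩
  · rintro ⟨hu, hv, i, h1, h2, h3⟩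
    exact ⟨i, by rw [cut_ne A hu]; exact h1, by rw [cut_ne A hv]; exact h2, h3⟩

section

variable {n : ℕ} {A A' : Cf} {x : Vtx} {Z : Vtx → Prop}

theorem mem_same (hH : ∀ u, ¬ Z u → A' u = A u ∨ ∃ e, A' u = insert e (A u) ∧
    (nb u e = x ∨ Z (nb u e))) {u : Vtx} {d : Fin 4} (hu : ¬ Z u) (h1 : nb u d ≠ x)
    (h2 : ¬ Z (nb u d)) : d ∈ A' u ↔ d ∈ A u := by
  rcases hH u hu with h | ⟨e, he, h⟩
  · rw [h]
  · rw [he, Finset.mem_insert]
    constructor
    · rintro (rfl | h')
      · rcases h with h | h
        · exact absurd h h1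
        · exact absurd h h2
      · exact h'
    · exact Or.inr

theorem mem_sub (hH : ∀ u, ¬ Z u → A' u = A u ∨ ∃ e, A' u = insert e (A u) ∧
    (nb u e = x ∨ Z (nb u e))) {u : Vtx} {d : Fin 4} (hu : ¬ Z u) (h : d ∈ A u) : d ∈ A' u := by
  rcases hH u hu with h' | ⟨e, he, -⟩
  · rw [h']; exact h
  · rw [he]; exact Finset.mem_insert_of_mem h

theorem adj_same (hH : ∀ u, ¬ Z u → A' u = A u ∨ ∃ e, A' u = insert e (A u) ∧
    (nb u e = x ∨ Z (nb u e))) {u v : Vtx} (hu : ¬ Z u) (hv : ¬ Z v) :
    AdjC n (cut A' x) u v ↔ AdjC n (cut A x) u v := by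
  rw [adj_cut, adj_cut]
  constructor
  · rintro ⟨h1, h2, i, k1, k2, k3, k4, k5⟩
    refine ⟨h1, h2, i, ?_, ?_, k3, k4, k5⟩
    · exact (mem_same hH hu (by rw [← k3]; exact h2) (by rw [← k3]; exact hv)).mp k1
    · refine (mem_same hH hv ?_ ?_).mp k2
      · rw [k3, nb_op]; exact h1
      · rw [k3, nb_op]; exact hu
  · rintro ⟨h1, h2, i, k1, k2, k3, k4, k5⟩
    exact ⟨h1, h2, i, mem_sub hH hu k1, mem_sub hH hv k2, k3, k4, k5⟩

theorem modkey (hb : ¬ ArmC n (cut A x))
    (hP : ∀ u, Z u → ¬ RC n (cut A x) (0, 0) u)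
    (hQ : ∀ u, Z u → ¬ ∃ w, onB n w ∧ RC n (cut A x) u w)
    (hH : ∀ u, ¬ Z u → A' u = A u ∨ ∃ e, A' u = insert e (A u) ∧ (nb u e = x ∨ Z (nb u e)))
    (hST : (∀ u, Z u → ∀ e ∈ A' u, nb u e = x ∨ Z (nb u e) ∨ RC n (cut A x) (0, 0) (nb u e)) ∨
      (∀ u, Z u → ∀ e ∈ A' u, nb u e = x ∨ Z (nb u e) ∨
        ∃ w, onB n w ∧ RC n (cut A x) (nb u e) w)) :
    (∀ u, RC n (cut A x) (0, 0) u → RC n (cut A' x) (0, 0) u) ∧
    (∀ u w, onB n w → RC n (cut A x) u w → RC n (cut A' x) u w) ∧
    ¬ ArmC n (cut A' x) := by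
  have hb' : ∀ u, RC n (cut A x) (0, 0) u → ¬ ∃ w, onB n w ∧ RC n (cut A x) u w := by
    rintro u h1 ⟨w, hw, h2⟩
    exact hb ((arm_iff n _).mpr ⟨w, hw, h1.trans h2⟩)
  refine ⟨?_, ?_, ?_⟩
  · intro u h
    induction h with
    | refl => exact Relation.ReflTransGen.refl
    | @tail b c h1 h2 ih =>
      refine ih.tail ((adj_same hH ?_ ?_).mpr h2)
      · exact fun hz => hP _ hz h1
      · exact fun hz => hP _ hz (h1.tail h2)
  · intro u w hw h
    induction h using Relation.ReflTransGen.head_induction_on with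
    | refl => exact Relation.ReflTransGen.refl
    | @head b c h1 h2 ih =>
      refine Relation.ReflTransGen.head ((adj_same hH ?_ ?_).mpr h1) ih
      · exact fun hz => hQ _ hz ⟨w, hw, Relation.ReflTransGen.head h1 h2⟩
      · exact fun hz => hQ _ hz ⟨w, hw, h2⟩
  · rw [arm_iff]
    rintro ⟨w, hw, hr⟩
    have hout : ∀ u v, AdjC n (cut A' x) u v → Z v → ∃ e ∈ A' v, u = nb v e ∧ u ≠ x := by
      intro u v h _
      rw [adj_cut] at h
      obtain ⟨h1, h2, i, k1, k2, k3, -⟩ := h
      exact ⟨op i, k2, by rw [k3, nb_op], h1⟩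
    rcases hST with hS | hT
    · have key : ∀ u, RC n (cut A' x) (0, 0) u → RC n (cut A x) (0, 0) u ∨ Z u := by
        intro u h
        induction h with
        | refl => exact Or.inl Relation.ReflTransGen.refl
        | @tail b c h1 h2 ih =>
          by_cases hc : Z c
          · exact Or.inr hc
          · left
            by_cases hbz : Z b
            · obtain ⟨e, he, h3, h4⟩ := hout c b h2.symm hbz
              rcases hS b hbz e he with h | h | h
              · exact absurd (h3.trans h) h4
              · exact absurd (h3 ▸ h) hc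
              · rw [h3]; exact h
            · have := (adj_same hH hbz hc).mp h2
              rcases ih with ih | ih
              · exact ih.tail this
              · exact absurd ih hbz
      rcases key w hr with h | h
      · exact hb' w h ⟨w, hw, Relation.ReflTransGen.refl⟩
      · exact hQ w h ⟨w, hw, Relation.ReflTransGen.refl⟩
    · have key : ∀ u, RC n (cut A' x) (0, 0) u → RC n (cut A x) (0, 0) u := by
        intro u h
        induction h with
        | refl => exact Relation.ReflTransGen.refl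
        | @tail b c h1 h2 ih =>
          have hbz : ¬ Z b := fun hz => hP _ hz ih
          by_cases hc : Z c
          · obtain ⟨e, he, h3, h4⟩ := hout b c h2 hc
            rcases hT c hc e he with h | h | h
            · exact absurd (h3.trans h) h4
            · exact absurd (h3 ▸ h) hbz
            · rw [← h3] at h
              exact absurd h (hb' b ih)
          · exact ih.tail ((adj_same hH hbz hc).mp h2)
      exact hb' w (key w hr) ⟨w, hw, Relation.ReflTransGen.refl⟩

theorem modfin {i j k : Fin 4} (hb : ¬ ArmC n (cut A x))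
    (hP : ∀ u, Z u → ¬ RC n (cut A x) (0, 0) u)
    (hQ : ∀ u, Z u → ¬ ∃ w, onB n w ∧ RC n (cut A x) u w)
    (hH : ∀ u, ¬ Z u → A' u = A u ∨ ∃ e, A' u = insert e (A u) ∧ (nb u e = x ∨ Z (nb u e)))
    (hST : (∀ u, Z u → ∀ e ∈ A' u, nb u e = x ∨ Z (nb u e) ∨ RC n (cut A x) (0, 0) (nb u e)) ∨
      (∀ u, Z u → ∀ e ∈ A' u, nb u e = x ∨ Z (nb u e) ∨
        ∃ w, onB n w ∧ RC n (cut A x) (nb u e) w))
    (hi : i ∈ II n A x) (hj : j ∈ JJ n A x) (hki : k ≠ i) (hkj : k ≠ j)
    (hk1 : nb x k ∈ bxV n) (hk2 : op k ∈ A' (nb x k))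
    (hk3 : RC n (cut A' x) (0, 0) (nb x k) ∨ ∃ w, onB n w ∧ RC n (cut A' x) (nb x k) w) :
    ¬ ArmC n (cut A' x) ∧ (II n A' x).Nonempty ∧
    (JJ n A' x).Nonempty ∧ 3 ≤ (II n A' x).card + (JJ n A' x).card := by
  obtain ⟨h1, h2, h3⟩ := modkey hb hP hQ hH hST
  obtain ⟨i1, i2, i3⟩ := mem_II.mp hi
  obtain ⟨j1, j2, w, hw, j3⟩ := mem_JJ.mp hj
  have hi' : i ∈ II n A' x :=
    mem_II.mpr ⟨i1, mem_sub hH (fun hz => hP _ hz i3) i2, h1 _ i3⟩
  have hj' : j ∈ JJ n A' x :=
    mem_JJ.mpr ⟨j1, mem_sub hH (fun hz => hQ _ hz ⟨w, hw, j3⟩) j2, w, hw, h2 _ w hw j3⟩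
  refine ⟨h3, ⟨i, hi'⟩, ⟨j, hj'⟩, ?_⟩
  rcases hk3 with hk3 | hk3
  · have hk' : k ∈ II n A' x := mem_II.mpr ⟨hk1, hk2, hk3⟩
    have e1 : ({k, i} : Finset (Fin 4)) ⊆ II n A' x := by
      intro d hd
      rw [Finset.mem_insert, Finset.mem_singleton] at hd
      rcases hd with rfl | rfl
      · exact hk'
      · exact hi'
    have e2 := Finset.card_le_card e1
    rw [Finset.card_pair hki] at e2
    have e3 := Finset.card_pos.mpr ⟨j, hj'⟩
    omega
  · have hk' : k ∈ JJ n A' x := mem_JJ.mpr ⟨hk1, hk2, hk3⟩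
    have e1 : ({k, j} : Finset (Fin 4)) ⊆ JJ n A' x := by
      intro d hd
      rw [Finset.mem_insert, Finset.mem_singleton] at hd
      rcases hd with rfl | rfl
      · exact hk'
      · exact hj'
    have e2 := Finset.card_le_card e1
    rw [Finset.card_pair hkj] at e2
    have e3 := Finset.card_pos.mpr ⟨i, hi'⟩
    omega

end

/-- the geometry around an inner vertex -/
theorem geom {n : ℕ} {x : Vtx} {i k : Fin 4} (hx : x ∈ bxV n) (hx' : ¬ onB n x)
    (hk : k = i + 1 ∨ k = i + 3) :
    nb x i ∈ bxV n ∧ nb x k ∈ bxV n ∧ nb (nb x k) i ∈ bxV n ∧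
    nb x i ∈ ring x ∧ nb x k ∈ ring x ∧ nb (nb x k) i ∈ ring x ∧
    nb (nb x k) i ≠ x := by
  have hx1 := mem_bxV.mp hx
  have hx2 : ¬ (x.1 = -n ∨ x.1 = n ∨ x.2 = -n ∨ x.2 = n) := by
    intro h
    exact hx' ⟨by unfold inR; omega, h⟩
  obtain ⟨a, b⟩ := x
  simp only at hx1 hx2
  simp only [mem_bxV]
  rcases hk with rfl | rfl <;> fin_cases i <;>
    simp [nb, dir, ring, Fin.add_def] <;> omega

theorem mod : S_Mod := by
  classical
  intro n A x hx hx' hb hI hJ
  obtain ⟨i, hi⟩ := Finset.card_pos.mp (by rw [hI]; exact one_pos)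
  obtain ⟨j, hj⟩ := Finset.card_pos.mp (by rw [hJ]; exact one_pos)
  have hdec : ∀ i j : Fin 4, ∃ k : Fin 4, (k = i + 1 ∨ k = i + 3) ∧ k ≠ j := by decide
  obtain ⟨k, hk, hkj⟩ := hdec i j
  have hki : k ≠ i := by
    rcases hk with rfl | rfl <;> (fin_cases i <;> decide)
  obtain ⟨gy, gz, gv, ry, rz, rv, hvx⟩ := geom hx hx' hk
  set y := nb x i with hy
  set z := nb x k with hz
  set v := nb z i with hv
  have hvy : v = nb y k := by rw [hv, hz, hy, nb_comm]
  have hzx : z ≠ x := nb_ne x k
  have hyx : y ≠ x := nb_ne x i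
  have hvz : v ≠ z := nb_ne z i
  have hvy' : v ≠ y := by rw [hvy]; exact nb_ne y k
  have hyz : y ≠ z := fun h => hki (nb_inj h).symm
  obtain ⟨-, i2, i3⟩ := mem_II.mp hi
  obtain ⟨-, j2, j3⟩ := mem_JJ.mp hj
  have hb' : ∀ u, RC n (cut A x) (0, 0) u → ¬ ∃ w, onB n w ∧ RC n (cut A x) u w := by
    rintro u h1 ⟨w, hw, h2⟩
    exact hb ((arm_iff n _).mpr ⟨w, hw, h1.trans h2⟩)
  by_cases hzc : RC n (cut A x) (0, 0) z ∨ ∃ w, onB n w ∧ RC n (cut A x) z w
  · -- case (a)
    refine ⟨Function.update A z (insert (op k) (A z)), ?_, ?_⟩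
    · intro u hu
      exact Function.update_of_ne (fun h : u = z => hu (by rw [h]; exact rz)) _ _
    · have hH : ∀ u, ¬ (fun _ : Vtx => False) u →
          Function.update A z (insert (op k) (A z)) u = A u ∨
          ∃ e, Function.update A z (insert (op k) (A z)) u = insert e (A u) ∧
            (nb u e = x ∨ (fun _ : Vtx => False) (nb u e)) := by
        intro u _
        by_cases hu : u = z
        · right
          refine ⟨op k, by rw [hu, Function.update_self], Or.inl ?_⟩
          rw [hu, hz, nb_op]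
        · exact Or.inl (Function.update_of_ne hu _ _)
      have hP : ∀ u, (fun _ : Vtx => False) u → ¬ RC n (cut A x) (0, 0) u := fun u h => h.elim
      have hQ : ∀ u, (fun _ : Vtx => False) u → ¬ ∃ w, onB n w ∧ RC n (cut A x) u w :=
        fun u h => h.elim
      have hST : (∀ u, (fun _ : Vtx => False) u →
          ∀ e ∈ Function.update A z (insert (op k) (A z)) u, nb u e = x ∨
            (fun _ : Vtx => False) (nb u e) ∨ RC n (cut A x) (0, 0) (nb u e)) ∨
          (∀ u, (fun _ : Vtx => False) u →
          ∀ e ∈ Function.update A z (insert (op k) (A z)) u, nb u e = x ∨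
            (fun _ : Vtx => False) (nb u e) ∨ ∃ w, onB n w ∧ RC n (cut A x) (nb u e) w) :=
        Or.inl (fun u h => h.elim)
      obtain ⟨h1, h2, -⟩ := modkey hb hP hQ hH hST
      refine modfin hb hP hQ hH hST hi hj hki hkj gz ?_ ?_
      · rw [← hz, Function.update_self]; exact Finset.mem_insert_self _ _
      · rcases hzc with h | ⟨w, hw, h⟩
        · exact Or.inl (h1 _ h)
        · exact Or.inr ⟨w, hw, h2 _ w hw h⟩
  · rw [not_or] at hzc
    obtain ⟨hz1, hz2⟩ := hzc
    by_cases hvc : RC n (cut A x) (0, 0) v ∨ ∃ w, onB n w ∧ RC n (cut A x) v w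
    · -- case (b1)
      set A' := Function.update (Function.update A z {op k, i}) v (insert (op i) (A v)) with hA'
      have e1 : A' z = {op k, i} := by
        rw [hA', Function.update_of_ne hvz.symm, Function.update_self]
      have e2 : A' v = insert (op i) (A v) := by rw [hA', Function.update_self]
      have e3 : ∀ u, u ≠ z → u ≠ v → A' u = A u := by
        intro u h1 h2
        rw [hA', Function.update_of_ne h2, Function.update_of_ne h1]
      refine ⟨A', ?_, ?_⟩
      · intro u hu
        exact e3 u (fun h => hu (by rw [h]; exact rz)) (fun h => hu (by rw [h]; exact rv))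
      · have hH : ∀ u, ¬ (fun u : Vtx => u = z) u → A' u = A u ∨ ∃ e, A' u = insert e (A u) ∧
            (nb u e = x ∨ (fun u : Vtx => u = z) (nb u e)) := by
          intro u hu
          by_cases huv : u = v
          · right
            refine ⟨op i, by rw [huv, e2], Or.inr ?_⟩
            show nb u (op i) = z
            rw [huv, hv, nb_op]
          · exact Or.inl (e3 u hu huv)
        have hP : ∀ u, (fun u : Vtx => u = z) u → ¬ RC n (cut A x) (0, 0) u := by
          rintro u rfl; exact hz1
        have hQ : ∀ u, (fun u : Vtx => u = z) u → ¬ ∃ w, onB n w ∧ RC n (cut A x) u w := by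
          rintro u rfl; exact hz2
        have hST : (∀ u, (fun u : Vtx => u = z) u →
            ∀ e ∈ A' u, nb u e = x ∨
              (fun u : Vtx => u = z) (nb u e) ∨ RC n (cut A x) (0, 0) (nb u e)) ∨
            (∀ u, (fun u : Vtx => u = z) u →
            ∀ e ∈ A' u, nb u e = x ∨
              (fun u : Vtx => u = z) (nb u e) ∨ ∃ w, onB n w ∧ RC n (cut A x) (nb u e) w) := by
          have aux : ∀ e ∈ A' z, nb z e = x ∨ nb z e = v := by
            intro e he
            rw [e1, Finset.mem_insert, Finset.mem_singleton] at he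
            rcases he with rfl | rfl
            · left; rw [hz, nb_op]
            · right; rfl
          rcases hvc with h | h
          · left
            rintro u hu e he
            have hu' : u = z := hu
            rw [hu'] at he ⊢
            rcases aux e he with h' | h'
            · exact Or.inl h'
            · right; right; rw [h']; exact h
          · right
            rintro u hu e he
            have hu' : u = z := hu
            rw [hu'] at he ⊢
            rcases aux e he with h' | h'
            · exact Or.inl h'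
            · right; right; rw [h']; exact h
        obtain ⟨h1, h2, -⟩ := modkey hb hP hQ hH hST
        have hvz' : AdjC n (cut A' x) v z := by
          rw [adj_cut]
          refine ⟨hvx, hzx, op i, ?_, ?_, ?_, gv, gz⟩
          · rw [e2]; exact Finset.mem_insert_self _ _
          · rw [op_op, e1]; simp
          · rw [hv, nb_op]
        refine modfin hb hP hQ hH hST hi hj hki hkj gz ?_ ?_
        · rw [← hz, e1]; simp
        · rcases hvc with h | ⟨w, hw, h⟩
          · exact Or.inl ((h1 _ h).tail hvz')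
          · exact Or.inr ⟨w, hw, Relation.ReflTransGen.head hvz'.symm (h2 _ w hw h)⟩
    · rw [not_or] at hvc
      obtain ⟨hv1, hv2⟩ := hvc
      -- case (b2)
      set A' := Function.update (Function.update (Function.update A z {op k, i}) v
        {op i, op k}) y (insert k (A y)) with hA'
      have e1 : A' z = {op k, i} := by
        rw [hA', Function.update_of_ne hyz.symm, Function.update_of_ne hvz.symm,
          Function.update_self]
      have e2 : A' v = {op i, op k} := by
        rw [hA', Function.update_of_ne hvy', Function.update_self]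
      have e4 : A' y = insert k (A y) := by rw [hA', Function.update_self]
      have e3 : ∀ u, u ≠ z → u ≠ v → u ≠ y → A' u = A u := by
        intro u h1 h2 h3
        rw [hA', Function.update_of_ne h3, Function.update_of_ne h2, Function.update_of_ne h1]
      refine ⟨A', ?_, ?_⟩
      · intro u hu
        exact e3 u (fun h => hu (by rw [h]; exact rz)) (fun h => hu (by rw [h]; exact rv)) (fun h => hu (by rw [h]; exact ry))
      · have hH : ∀ u, ¬ (fun u : Vtx => u = z ∨ u = v) u → A' u = A u ∨
            ∃ e, A' u = insert e (A u) ∧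
            (nb u e = x ∨ (fun u : Vtx => u = z ∨ u = v) (nb u e)) := by
          intro u hu
          have hu1 : u ≠ z := fun h => hu (Or.inl h)
          have hu2 : u ≠ v := fun h => hu (Or.inr h)
          by_cases huy : u = y
          · right
            refine ⟨k, by rw [huy, e4], Or.inr (Or.inr ?_)⟩
            rw [huy, ← hvy]
          · exact Or.inl (e3 u hu1 hu2 huy)
        have hP : ∀ u, (fun u : Vtx => u = z ∨ u = v) u → ¬ RC n (cut A x) (0, 0) u := by
          rintro u (rfl | rfl)
          · exact hz1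
          · exact hv1
        have hQ : ∀ u, (fun u : Vtx => u = z ∨ u = v) u →
            ¬ ∃ w, onB n w ∧ RC n (cut A x) u w := by
          rintro u (rfl | rfl)
          · exact hz2
          · exact hv2
        have hST : (∀ u, (fun u : Vtx => u = z ∨ u = v) u →
            ∀ e ∈ A' u, nb u e = x ∨
              (fun u : Vtx => u = z ∨ u = v) (nb u e) ∨ RC n (cut A x) (0, 0) (nb u e)) ∨
            (∀ u, (fun u : Vtx => u = z ∨ u = v) u →
            ∀ e ∈ A' u, nb u e = x ∨
              (fun u : Vtx => u = z ∨ u = v) (nb u e) ∨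
                ∃ w, onB n w ∧ RC n (cut A x) (nb u e) w) := by
          left
          intro u hu e he
          have hu' : u = z ∨ u = v := hu
          rcases hu' with hu' | hu'
          · rw [hu', e1, Finset.mem_insert, Finset.mem_singleton] at he
            rw [hu']
            rcases he with rfl | rfl
            · left; rw [hz, nb_op]
            · right; left; right; rfl
          · rw [hu', e2, Finset.mem_insert, Finset.mem_singleton] at he
            rw [hu']
            rcases he with rfl | rfl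
            · right; left; left; rw [hv, nb_op]
            · right; right; rw [hvy, nb_op]; exact i3
        obtain ⟨h1, h2, -⟩ := modkey hb hP hQ hH hST
        have hvz' : AdjC n (cut A' x) v z := by
          rw [adj_cut]
          refine ⟨hvx, hzx, op i, ?_, ?_, ?_, gv, gz⟩
          · rw [e2]; simp
          · rw [op_op, e1]; simp
          · rw [hv, nb_op]
        have hyv' : AdjC n (cut A' x) y v := by
          rw [adj_cut]
          refine ⟨hyx, hvx, k, ?_, ?_, hvy, gy, gv⟩
          · rw [e4]; simp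
          · rw [e2]; simp
        refine modfin hb hP hQ hH hST hi hj hki hkj gz ?_ ?_
        · rw [← hz, e1]; simp
        · exact Or.inl (((h1 _ i3).tail hyv').tail hvz')

end Q121.BN
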