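import Pool.Agent.Q121.BN.Basic

/-! # Project BN: JOBS PAT and MOD (helper121) -/

open H974

namespace Q121.BN

theorem mem_bxV {n : ℕ} {v : Vtx} :
    v ∈ bxV n ↔ (-(n : ℤ) ≤ v.1 ∧ v.1 ≤ n) ∧ (-(n : ℤ) ≤ v.2 ∧ v.2 ≤ n) := by
  simp only [bxV, Finset.mem_product, Finset.mem_Icc]

theorem op_op (i : Fin 4) : op (op i) = i := by fin_cases i <;> rfl

theorem op_ne (i : Fin 4) : op i ≠ i := by fin_cases i <;> decide

theorem nb_op (x : Vtx) (i : Fin 4) : nb (nb x i) (op i) = x := by
  obtain ⟨a, b⟩ := x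
  fin_cases i <;> simp [nb, dir, op]

theorem nb_ne (x : Vtx) (i : Fin 4) : nb x i ≠ x := by
  obtain ⟨a, b⟩ := x
  fin_cases i <;> simp [nb, dir]

theorem dir_inj {i j : Fin 4} (h : dir i = dir j) : i = j := by
  revert h
  fin_cases i <;> fin_cases j <;> simp [dir]

theorem nb_inj {x : Vtx} {i j : Fin 4} (h : nb x i = nb x j) : i = j := by
  apply dir_inj
  have h1 := congrArg Prod.fst h
  have h2 := congrArg Prod.snd h
  simp only [nb] at h1 h2
  exact Prod.ext (by linarith) (by linarith)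

theorem nb_comm (x : Vtx) (i k : Fin 4) : nb (nb x i) k = nb (nb x k) i := by
  simp only [nb, Prod.mk.injEq]
  constructor <;> ring

/-- adjacency in the box -/
def AdjC (n : ℕ) (A : Cf) (u v : Vtx) : Prop :=
  ∃ i : Fin 4, i ∈ A u ∧ op i ∈ A v ∧ v = nb u i ∧ u ∈ bxV n ∧ v ∈ bxV n

theorem AdjC.symm {n : ℕ} {A : Cf} {u v : Vtx} (h : AdjC n A u v) : AdjC n A v u := by
  obtain ⟨i, h1, h2, rfl, h4, h5⟩ := h
  exact ⟨op i, h2, by rw [op_op]; exact h1, (nb_op u i).symm, h5, h4⟩

theorem adj_iff (n : ℕ) (A : Cf) (u v : Vtx) :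
    Adj (opn A ∩ ↑(boxE n)) u v ↔ AdjC n A u v := by
  constructor
  · rintro ⟨e, ⟨he1, he2⟩, hc⟩
    obtain ⟨x, y, _ | _⟩ := e
    · have he2' : ((x, y, false) : Edg) ∈ RE (-(n : ℤ)) n (-(n : ℤ)) n := he2
      rw [mem_RE_false] at he2'
      simp only [opn, Set.mem_ofPred_eq, Bool.false_eq_true, if_false, src_mk, tgt_false] at he1
      simp only [src_mk, tgt_false] at hc
      have base : AdjC n A (x, y) (x, y + 1) := by
        refine ⟨1, he1.1, he1.2, ?_, ?_, ?_⟩
        · simp [nb, dir]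
        · rw [mem_bxV]; simp only; omega
        · rw [mem_bxV]; simp only; omega
      rcases hc with ⟨rfl, rfl⟩ | ⟨rfl, rfl⟩
      · exact base
      · exact base.symm
    · have he2' : ((x, y, true) : Edg) ∈ RE (-(n : ℤ)) n (-(n : ℤ)) n := he2
      rw [mem_RE_true] at he2'
      simp only [opn, Set.mem_ofPred_eq, if_true, src_mk, tgt_true] at he1
      simp only [src_mk, tgt_true] at hc
      have base : AdjC n A (x, y) (x + 1, y) := by
        refine ⟨0, he1.1, he1.2, ?_, ?_, ?_⟩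
        · simp [nb, dir]
        · rw [mem_bxV]; simp only; omega
        · rw [mem_bxV]; simp only; omega
      rcases hc with ⟨rfl, rfl⟩ | ⟨rfl, rfl⟩
      · exact base
      · exact base.symm
  · have fwd : ∀ u v : Vtx, ∀ i : Fin 4, (i = 0 ∨ i = 1) → i ∈ A u → op i ∈ A v → v = nb u i →
        u ∈ bxV n → v ∈ bxV n → Adj (opn A ∩ ↑(boxE n)) u v := by
      rintro ⟨x, y⟩ v i hi h1 h2 rfl h4 h5
      rcases hi with rfl | rfl
      · refine ⟨(x, y, true), ⟨?_, ?_⟩, Or.inl ⟨rfl, ?_⟩⟩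
        · simp only [opn, Set.mem_ofPred_eq, if_true, src_mk, tgt_true]
          refine ⟨h1, ?_⟩
          simpa [nb, dir, op] using h2
        · show ((x, y, true) : Edg) ∈ RE (-(n : ℤ)) n (-(n : ℤ)) n
          rw [mem_RE_true]
          rw [mem_bxV] at h4 h5
          simp only [nb, dir] at h4 h5
          omega
        · simp [nb, dir]
      · refine ⟨(x, y, false), ⟨?_, ?_⟩, Or.inl ⟨rfl, ?_⟩⟩
        · simp only [opn, Set.mem_ofPred_eq, Bool.false_eq_true, if_false, src_mk, tgt_false]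
          refine ⟨h1, ?_⟩
          simpa [nb, dir, op] using h2
        · show ((x, y, false) : Edg) ∈ RE (-(n : ℤ)) n (-(n : ℤ)) n
          rw [mem_RE_false]
          rw [mem_bxV] at h4 h5
          simp only [nb, dir] at h4 h5
          omega
        · simp [nb, dir]
    rintro ⟨i, h1, h2, h3, h4, h5⟩
    by_cases hi : i = 0 ∨ i = 1
    · exact fwd u v i hi h1 h2 h3 h4 h5
    · apply Adj.symm
      have hi' : op i = 0 ∨ op i = 1 := by
        revert hi; fin_cases i <;> decide
      refine fwd v u (op i) hi' h2 (by rw [op_op]; exact h1) ?_ h5 h4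
      rw [h3, nb_op]

/-- connection in the box -/
abbrev RC (n : ℕ) (A : Cf) : Vtx → Vtx → Prop := Relation.ReflTransGen (AdjC n A)

theorem reach_iff (n : ℕ) (A : Cf) (u v : Vtx) :
    Reach (opn A ∩ ↑(boxE n)) u v ↔ RC n A u v := by
  have : Adj (opn A ∩ ↑(boxE n)) = AdjC n A := by
    funext u v; exact propext (adj_iff n A u v)
  unfold Reach
  rw [this]

theorem RC.symm {n : ℕ} {A : Cf} {u v : Vtx} (h : RC n A u v) : RC n A v u := by
  induction h with
  | refl => exact Relation.ReflTransGen.refl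
  | tail _ hs ih => exact Relation.ReflTransGen.head hs.symm ih

theorem arm_iff (n : ℕ) (A : Cf) : ArmC n A ↔ ∃ v, onB n v ∧ RC n A (0, 0) v := by
  unfold ArmC
  simp only [reach_iff]

open Classical in
theorem mem_II {n : ℕ} {A : Cf} {x : Vtx} {i : Fin 4} :
    i ∈ II n A x ↔ nb x i ∈ bxV n ∧ op i ∈ A (nb x i) ∧ RC n (cut A x) (0, 0) (nb x i) := by
  unfold II
  rw [Finset.mem_filter, reach_iff]
  simp

open Classical in
theorem mem_JJ {n : ℕ} {A : Cf} {x : Vtx} {i : Fin 4} :
    i ∈ JJ n A x ↔ nb x i ∈ bxV n ∧ op i ∈ A (nb x i) ∧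
      ∃ w, onB n w ∧ RC n (cut A x) (nb x i) w := by
  unfold JJ
  rw [Finset.mem_filter]
  simp only [reach_iff]
  simp

theorem cut_self (A : Cf) (x : Vtx) : cut A x x = ∅ := by simp [cut]

theorem cut_ne (A : Cf) {x v : Vtx} (h : v ≠ x) : cut A x v = A v := by
  simp [cut, Function.update_of_ne h]

theorem not_adj_cut {n : ℕ} {A : Cf} {x v : Vtx} : ¬ AdjC n (cut A x) x v := by
  rintro ⟨i, h1, -⟩
  rw [cut_self] at h1
  exact absurd h1 (Finset.notMem_empty _)

theorem not_adj_cut' {n : ℕ} {A : Cf} {x v : Vtx} : ¬ AdjC n (cut A x) v x :=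
  fun h => not_adj_cut h.symm

theorem RC_cut {n : ℕ} {A : Cf} {x u : Vtx} (h : RC n (cut A x) u x) : u = x := by
  cases h with
  | refl => rfl
  | tail _ hs => exact absurd hs not_adj_cut'

section pat

variable {n : ℕ} {A : Cf} {x : Vtx} {a : Om}

theorem adj_up {u v : Vtx} (h : AdjC n (cut A x) u v) : AdjC n (Function.update A x a) u v := by
  have hu : u ≠ x := fun hh => not_adj_cut (hh ▸ h)
  have hv : v ≠ x := fun hh => not_adj_cut' (hh ▸ h)
  obtain ⟨i, h1, h2, h3, h4, h5⟩ := h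
  rw [cut_ne A hu] at h1
  rw [cut_ne A hv] at h2
  exact ⟨i, by rw [Function.update_of_ne hu]; exact h1, by
    rw [Function.update_of_ne hv]; exact h2, h3, h4, h5⟩

theorem adj_down {u v : Vtx} (hu : u ≠ x) (hv : v ≠ x)
    (h : AdjC n (Function.update A x a) u v) : AdjC n (cut A x) u v := by
  obtain ⟨i, h1, h2, h3, h4, h5⟩ := h
  rw [Function.update_of_ne hu] at h1
  rw [Function.update_of_ne hv] at h2
  exact ⟨i, by rw [cut_ne A hu]; exact h1, by rw [cut_ne A hv]; exact h2, h3, h4, h5⟩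

/-- `u` reaches `x` -/
def To (n : ℕ) (A : Cf) (x : Vtx) (a : Om) (u : Vtx) : Prop :=
  u = x ∨ ∃ i ∈ a, op i ∈ A (nb x i) ∧ nb x i ∈ bxV n ∧ RC n (cut A x) u (nb x i)

theorem to_of_adj {v : Vtx} (h : AdjC n (Function.update A x a) x v) : To n A x a v := by
  obtain ⟨i, h1, h2, h3, h4, h5⟩ := h
  rw [Function.update_self] at h1
  have hv : v ≠ x := by rw [h3]; exact nb_ne x i
  rw [Function.update_of_ne hv] at h2
  right
  refine ⟨i, h1, by rw [← h3]; exact h2, by rw [← h3]; exact h5, ?_⟩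
  rw [h3]

theorem split_path {u v : Vtx} (h : RC n (Function.update A x a) u v) :
    RC n (cut A x) u v ∨ (To n A x a u ∧ To n A x a v) := by
  induction h with
  | refl => exact Or.inl Relation.ReflTransGen.refl
  | @tail v v' _ hs ih =>
    by_cases hv : v = x
    · subst hv
      right
      refine ⟨?_, to_of_adj hs⟩
      rcases ih with h | h
      · exact Or.inl (RC_cut h)
      · exact h.1
    · by_cases hv' : v' = x
      · subst hv'
        right
        refine ⟨?_, Or.inl rfl⟩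
        rcases ih with h | h
        · rcases to_of_adj hs.symm with h' | ⟨i, h1, h2, h3, h4⟩
          · exact absurd h' hv
          · exact Or.inr ⟨i, h1, h2, h3, h.trans h4⟩
        · exact h.1
      · have hs' := adj_down hv hv' hs
        rcases ih with h | ⟨h1, h2⟩
        · exact Or.inl (h.tail hs')
        · right
          refine ⟨h1, ?_⟩
          rcases h2 with h2 | ⟨i, k1, k2, k3, k4⟩
          · exact absurd h2 hv
          · exact Or.inr ⟨i, k1, k2, k3, Relation.ReflTransGen.head hs'.symm k4⟩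

theorem RC_up {u v : Vtx} (h : RC n (cut A x) u v) : RC n (Function.update A x a) u v := by
  induction h with
  | refl => exact Relation.ReflTransGen.refl
  | tail _ hs ih => exact ih.tail (adj_up hs)

theorem to_reach (hx : x ∈ bxV n) {u : Vtx} (h : To n A x a u) :
    RC n (Function.update A x a) u x := by
  rcases h with rfl | ⟨i, h1, h2, h3, h4⟩
  · exact Relation.ReflTransGen.refl
  · refine (RC_up h4).tail ?_
    apply AdjC.symm
    refine ⟨i, by rw [Function.update_self]; exact h1, ?_, rfl, hx, h3⟩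
    rw [Function.update_of_ne (nb_ne x i)]; exact h2

theorem cut_update : cut (Function.update A x a) x = cut A x := by
  unfold cut; rw [Function.update_idem]

end pat

theorem pat : S_Pat := by
  intro n A x a hx
  refine ⟨⟨?_, ?_, cut_update⟩, ?_, ?_⟩
  · ext i
    rw [mem_II, mem_II, cut_update, Function.update_of_ne (nb_ne x i)]
  · ext i
    rw [mem_JJ, mem_JJ, cut_update, Function.update_of_ne (nb_ne x i)]
  · intro hb
    rw [Finset.disjoint_left]
    intro i h1 h2
    rw [mem_II] at h1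
    rw [mem_JJ] at h2
    obtain ⟨w, hw, hr⟩ := h2.2.2
    exact hb ((arm_iff n _).mpr ⟨w, hw, h1.2.2.trans hr⟩)
  · rw [arm_iff, arm_iff]
    constructor
    · rintro ⟨v, hv, hr⟩
      rcases split_path hr with h | ⟨h1, h2⟩
      · exact Or.inl ⟨v, hv, h⟩
      · right
        constructor
        · rcases h1 with h1 | ⟨i, k1, k2, k3, k4⟩
          · exact Or.inl h1.symm
          · exact Or.inr ⟨i, Finset.mem_inter.mpr ⟨k1, mem_II.mpr ⟨k3, k2, k4⟩⟩⟩
        · rcases h2 with h2 | ⟨i, k1, k2, k3, k4⟩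
          · exact Or.inl (h2 ▸ hv)
          · exact Or.inr ⟨i, Finset.mem_inter.mpr ⟨k1, mem_JJ.mpr ⟨k3, k2, v, hv, k4.symm⟩⟩⟩
    · rintro (⟨v, hv, hr⟩ | ⟨h1, h2⟩)
      · exact ⟨v, hv, RC_up hr⟩
      · have k1 : RC n (Function.update A x a) (0, 0) x := by
          rcases h1 with h1 | ⟨i, hi⟩
          · rw [h1]
          · obtain ⟨hi1, hi2⟩ := Finset.mem_inter.mp hi
            obtain ⟨g1, g2, g3⟩ := mem_II.mp hi2
            exact to_reach hx (Or.inr ⟨i, hi1, g2, g1, g3⟩)
        rcases h2 with h2 | ⟨i, hi⟩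
        · exact ⟨x, h2, k1⟩
        · obtain ⟨hi1, hi2⟩ := Finset.mem_inter.mp hi
          obtain ⟨g1, g2, w, hw, g3⟩ := mem_JJ.mp hi2
          refine ⟨w, hw, k1.trans ?_⟩
          exact (to_reach hx (Or.inr ⟨i, hi1, g2, g1, g3.symm⟩)).symm

end Q121.BN
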