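import Pool.Agent.Q121.BN.Basic

/-! # Project BN: JOB PROD (helper121) -/

open H974

namespace Q121.BN

/-- `F` does not depend on the half-edge `(x, i)` -/
def Fr (x : Vtx) (i : Fin 4) (F : Cf → ℝ) : Prop :=
  ∀ A A' : Cf, (∀ y j, (y, j) ≠ (x, i) → (j ∈ A y ↔ j ∈ A' y)) → F A = F A'

theorem nu_split {r : ℝ} {i : Fin 4} {t : Om} (ht : i ∉ t) :
    nu r t = (1 - r) * (r ^ t.card * (1 - r) ^ (3 - t.card)) ∧
    nu r (insert i t) = r * (r ^ t.card * (1 - r) ^ (3 - t.card)) := by
  have h1 : t.card ≤ 3 := by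
    have := Finset.card_le_card (Finset.subset_univ (insert i t))
    rw [Finset.card_insert_of_notMem ht, Finset.card_univ, Fintype.card_fin] at this
    omega
  unfold nu
  rw [Finset.card_insert_of_notMem ht]
  constructor
  · have : 4 - t.card = (3 - t.card) + 1 := by omega
    rw [this, pow_succ]; ring
  · have : 4 - (t.card + 1) = 3 - t.card := by omega
    rw [this, pow_succ]; ring

theorem half {r : ℝ} {L : List Vtx} (hL : L.Nodup) {x : Vtx} (hx : x ∈ L) (i : Fin 4)
    {F : Cf → ℝ} (hF : Fr x i F) (B : Cf) :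
    Ev (fun _ => nu r) L (fun A => ind (i ∈ A x) * F A) B = r * Ev (fun _ => nu r) L F B := by
  classical
  have hp : L.Perm (L.erase x ++ [x]) :=
    (List.perm_cons_erase hx).trans (List.perm_append_singleton x _).symm
  rw [Ev_perm hp hL, Ev_perm hp hL, Ev_append, Ev_append, ← Ev_smul]
  apply Ev_congr'
  intro A
  simp only [Ev, Function.update_self]
  have huniv : (Finset.univ : Finset Om) = (insert i (Finset.univ.erase i)).powerset := by
    rw [Finset.insert_erase (Finset.mem_univ i)]
    exact (Finset.powerset_univ).symm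
  rw [huniv, Finset.sum_powerset_insert (Finset.notMem_erase _ _),
    Finset.sum_powerset_insert (Finset.notMem_erase _ _), ← Finset.sum_add_distrib,
    ← Finset.sum_add_distrib, Finset.mul_sum]
  refine Finset.sum_congr rfl fun t ht => ?_
  have hit : i ∉ t := fun h => Finset.notMem_erase i _ (Finset.mem_powerset.mp ht h)
  obtain ⟨e1, e2⟩ := nu_split (r := r) hit
  have e3 : F (Function.update A x t) = F (Function.update A x (insert i t)) := by
    apply hF
    intro y j hyj
    by_cases hy : y = x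
    · subst hy
      rw [Function.update_self, Function.update_self, Finset.mem_insert]
      constructor
      · exact Or.inr
      · rintro (rfl | h)
        · exact absurd rfl hyj
        · exact h
    · rw [Function.update_of_ne hy, Function.update_of_ne hy]
  rw [e1, e2, e3, ind_not_of hit, ind_of (Finset.mem_insert_self i t)]
  ring

/-- the half-edges of an edge -/
def hs (e : Edg) : Vtx × Fin 4 := (src e, if e.2.2 then 0 else 1)

/-- the half-edges of an edge -/
def ht (e : Edg) : Vtx × Fin 4 := (tgt e, if e.2.2 then 2 else 3)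

theorem hs_ne_ht (e e' : Edg) : hs e ≠ ht e' := by
  obtain ⟨x, y, _ | _⟩ := e <;> obtain ⟨x', y', _ | _⟩ := e' <;> simp [hs, ht]

theorem hs_inj {e e' : Edg} (h : hs e = hs e') : e = e' := by
  obtain ⟨x, y, _ | _⟩ := e <;> obtain ⟨x', y', _ | _⟩ := e' <;> simp [hs] at h ⊢ <;> exact h

theorem ht_inj {e e' : Edg} (h : ht e = ht e') : e = e' := by
  obtain ⟨x, y, _ | _⟩ := e <;> obtain ⟨x', y', _ | _⟩ := e' <;> simp [ht] at h ⊢ <;> exact h

theorem mem_opn {A : Cf} {e : Edg} : e ∈ opn A ↔ (hs e).2 ∈ A (hs e).1 ∧ (ht e).2 ∈ A (ht e).1 :=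
  Iff.rfl

open Classical in
/-- open edges of `D` -/
noncomputable def GD (D : Finset Edg) (A : Cf) : Finset Edg := D.filter (fun e => e ∈ opn A)

theorem GD_congr {D : Finset Edg} {A A' : Cf} (h : ∀ e ∈ D, e ∈ opn A ↔ e ∈ opn A') :
    GD D A = GD D A' := by
  ext e
  simp only [GD, Finset.mem_filter]
  exact and_congr_right (fun he => h e he)

theorem opn_congr {A A' : Cf} {e : Edg} {p : Vtx × Fin 4}
    (h : ∀ y j, (y, j) ≠ p → (j ∈ A y ↔ j ∈ A' y)) (h1 : hs e ≠ p) (h2 : ht e ≠ p) :
    e ∈ opn A ↔ e ∈ opn A' := by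
  rw [mem_opn, mem_opn]
  exact and_congr (h _ _ h1) (h _ _ h2)

theorem prod_step {r : ℝ} {L : List Vtx} (hL : L.Nodup) {e : Edg} {D : Finset Edg} (he : e ∉ D)
    (h1 : src e ∈ L) (h2 : tgt e ∈ L) (g : Finset Edg → ℝ) (B : Cf) :
    Ev (fun _ => nu r) L (fun A => ind (e ∈ opn A) * g (GD D A)) B =
      r ^ 2 * Ev (fun _ => nu r) L (fun A => g (GD D A)) B := by
  have e0 : ∀ A : Cf, ind (e ∈ opn A) * g (GD D A) =
      ind ((hs e).2 ∈ A (hs e).1) * (ind ((ht e).2 ∈ A (ht e).1) * g (GD D A)) := by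
    intro A
    rw [ind_congr mem_opn, ind_and, mul_assoc]
  rw [Ev_congr' e0, half hL (x := (hs e).1) h1 (hs e).2,
    half hL (x := (ht e).1) h2 (ht e).2]
  · ring
  · intro A A' h
    show g (GD D A) = g (GD D A')
    rw [GD_congr]
    intro e' he'
    exact opn_congr h (hs_ne_ht _ _) (fun hh => he (ht_inj hh ▸ he'))
  · intro A A' h
    have h' := h (ht e).1 (ht e).2 (fun hh => hs_ne_ht e e hh.symm)
    show ind ((ht e).2 ∈ A (ht e).1) * g (GD D A) = ind ((ht e).2 ∈ A' (ht e).1) * g (GD D A')
    rw [ind_congr h', GD_congr]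
    intro e' he'
    exact opn_congr h (fun hh => he (hs_inj hh ▸ he')) (fun hh => hs_ne_ht _ _ hh.symm)

theorem prod_all {r : ℝ} {L : List Vtx} (hL : L.Nodup) (D : Finset Edg)
    (hD : ∀ e ∈ D, src e ∈ L ∧ tgt e ∈ L) (g : Finset Edg → ℝ) (B : Cf) :
    Ev (fun _ => nu r) L (fun A => g (GD D A)) B = Ex (fun _ => r ^ 2) D g := by
  classical
  induction D using Finset.induction_on generalizing g with
  | empty =>
    have : ∀ A, g (GD ∅ A) = g ∅ := fun A => by simp [GD]
    rw [Ev_congr' this, Ev_const]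
    · simp [Ex]
    · intro _
      have := Finset.sum_pow_mul_eq_add_pow r (1 - r) (Finset.univ : Finset (Fin 4))
      rw [Finset.powerset_univ, Finset.card_univ, Fintype.card_fin] at this
      unfold nu
      rw [this]; ring
  | insert e D he ih =>
    have hD' : ∀ e ∈ D, src e ∈ L ∧ tgt e ∈ L := fun e' h => hD e' (Finset.mem_insert_of_mem h)
    obtain ⟨h1, h2⟩ := hD e (Finset.mem_insert_self _ _)
    have e0 : ∀ A, g (GD (insert e D) A) = ind (e ∈ opn A) * g (insert e (GD D A)) +
        (g (GD D A) - ind (e ∈ opn A) * g (GD D A)) := by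
      intro A
      by_cases hA : e ∈ opn A
      · have : GD (insert e D) A = insert e (GD D A) := by
          unfold GD; rw [Finset.filter_insert, if_pos hA]
        rw [this, ind_of hA]; ring
      · have : GD (insert e D) A = GD D A := by
          unfold GD; rw [Finset.filter_insert, if_neg hA]
        rw [this, ind_not_of hA]; ring
    rw [Ev_congr' e0, Ev_add, Ev_sub,
      prod_step hL he h1 h2 (fun T => g (insert e T)), prod_step hL he h1 h2 g,
      ih hD' (fun T => g (insert e T)), ih hD' g, Ex_insert _ he]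
    ring

theorem prod : S_Prod := by
  intro r n B _ _
  have e0 : ∀ A, ind (ArmC n A) = ind (Arm n (GD (boxE n) A)) := by
    intro A
    apply ind_congr
    have : (↑(GD (boxE n) A) : Set Edg) ∩ ↑(boxE n) = opn A ∩ ↑(boxE n) := by
      ext e
      simp only [GD, Finset.coe_filter, Set.mem_inter_iff, Set.mem_ofPred_eq, Finset.mem_coe]
      tauto
    unfold ArmC Arm
    rw [this]
  rw [Ev_congr' e0, prod_all (Finset.nodup_toList _) (boxE n) _ (fun T => ind (Arm n T))]
  · rfl
  · intro e he
    rw [Finset.mem_toList, Finset.mem_toList]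
    obtain ⟨x, y, _ | _⟩ := e
    · have he2' : ((x, y, false) : Edg) ∈ RE (-(n : ℤ)) n (-(n : ℤ)) n := he
      rw [mem_RE_false] at he2'
      simp only [src_mk, tgt_false, bxV, Finset.mem_product, Finset.mem_Icc]
      omega
    · have he2' : ((x, y, true) : Edg) ∈ RE (-(n : ℤ)) n (-(n : ℤ)) n := he
      rw [mem_RE_true] at he2'
      simp only [src_mk, tgt_true, bxV, Finset.mem_product, Finset.mem_Icc]
      omega

end Q121.BN
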