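import Pool.Agent.Q121.BN.Defs

/-!
# Project BN (MP_627919_pr, specialist): statements of the lemma jobs

Goal: the bidirectional 3-neighbour graph on `ℤ²` percolates. Proof: replace the laws of the
vertices one after the other. With independent retention of the directions with probability
`r0 = 1/√2` the model is critical independent bond percolation (`p = 1/2`); a uniform
3-subset is at least as good at every vertex, and strictly better for some patterns; a local
modification turns this into the comparison with `p = r1^2 > 1/2`, which percolates by the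
library `H974R2` (`theta_lower`, `fin_bound`).
-/

open H974 MeasureTheory

namespace Q121.BN

/-- **Job HYB** (telescoping). By induction on the list, for site-dependent laws: replace the law
of the sites one by one. For the head `x` of the list `x :: L`:
`Ev κ (x :: L) f B = ∑ a, κ x a * Ev κ L (fun A => f (Function.update A x a)) B` (since `x ∉ L`,
updates commute), and the order of the list does not matter (`List.Perm`), so any site can be put
first. Formulate the induction for `κ` with `κ y = l'` for `y` in a set of treated sites and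
`κ y = l` for the others. -/
def S_Hyb : Prop := ∀ (l l' : Om → ℝ) (L : List Vtx) (f : Cf → ℝ) (B : Cf), L.Nodup →
  (∀ x ∈ L, ∀ κ : Vtx → Om → ℝ, (∀ y, κ y = l ∨ κ y = l') →
    0 ≤ ∑ a : Om, (l' a - l a) * Ev κ (L.erase x) (fun A => f (Function.update A x a)) B) →
  Ev (fun _ => l) L f B ≤ Ev (fun _ => l') L f B

/-- **Job PAT** (decomposition at a vertex `x` of the box). (1) `II`, `JJ`, `cut` do not depend on
`A x`. (2) If the origin is not connected to the boundary in the configuration without `x` then
`II` and `JJ` are disjoint (a common direction `i` gives a connection through `nb x i`).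
(3) The origin is connected to the boundary in the configuration with `A x = a` iff it is so
without `x`, or it is through `x`: (`x` is the origin or some retained direction leads to the cluster
of the origin) and (`x` is on the boundary or some retained direction leads to the boundary).
Proof of (3): `opn (update A x a)` consists of `opn (cut A x)` (no edge at `x`) and of the edges at
`x` in direction `i` with `i ∈ a`, `op i ∈ A (nb x i)`; split a path at its visits of `x` (take
the part before the first and the part after the last visit). An edge at `x` is in `boxE n` iff the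
neighbour is in `bxV n` (for `x ∈ bxV n`). -/
def S_Pat : Prop := ∀ (n : ℕ) (A : Cf) (x : Vtx) (a : Om), x ∈ bxV n →
  (II n (Function.update A x a) x = II n A x ∧ JJ n (Function.update A x a) x = JJ n A x ∧
    cut (Function.update A x a) x = cut A x) ∧
  (¬ ArmC n (cut A x) → Disjoint (II n A x) (JJ n A x)) ∧
  (ArmC n (Function.update A x a) ↔ ArmC n (cut A x) ∨
    ((x = (0, 0) ∨ (a ∩ II n A x).Nonempty) ∧ (onB n x ∨ (a ∩ JJ n A x).Nonempty)))

/-- **Job PHI** (one vertex). `r0^2 = 1/2`, `s0 = 1 - r0`. For disjoint `I`, `J`:
`phi (nu r) False False I J = (1 - s^|I|) (1 - s^|J|)`, `phi (nu r) True False I J = 1 - s^|J|`, etc.;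
for `mu3` the probability to miss a set of size `0, 1, ≥ 2` is `1, 1/4, 0`, so
`phi mu3 False False I J = 1/2, 3/4, 1` for sizes `(1,1)`, `(1,≥2)`, `(≥2,≥2)` (and `0` if one is
empty). For `(1,1)`: equality `r0^2 = 1/2`. For `(1,j)`, `j ≥ 2`: `r0 (1 - s0^j) < 3/4`. With `p`
true, `q` false: `|J| = 1`: `3/4 > r0`. (The sets are subsets of `Fin 4`: the cases of `I, J` can be
split by `decide`-like enumeration, 81 disjoint pairs, or treat general cardinalities.) -/
def S_Phi : Prop := ∀ (p q : Prop) (I J : Om), Disjoint I J →
  phi (nu r0) p q I J ≤ phi mu3 p q I J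

/-- **Job PHM** (one vertex, the mixture). Same formulas. The gain for the mixture against
`nu r0` is half of the gain in JOB PHI: for `¬p`, `¬q`, `I`, `J` nonempty, `|I| + |J| ≥ 3` it is at
least `1/40` (`(1,2)`: 0.0518, `(1,3)`: 0.0303, `(2,2)`: 0.0821); for `p` or `q` true exactly one of
them: `|J| = 1`: 0.0214, `|J| = j ≥ 2`: `s0^j / 2 ≥ s0^4 / 2 > 0.0036`; both true or `J = ∅`:
equality for every `r`; `¬p`, `I = ∅`: both sides `0`. Against `nu r1` with `r1` slightly above `r0` the
value of `phi (nu r1)` changes by at most `8 (r1 - r0)` (or use continuity). `δ = 1/80`. -/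
def S_Phm : Prop := ∃ δ : ℝ, 0 < δ ∧ ∀ ε : ℝ, 0 < ε → ∃ r1 : ℝ, r0 < r1 ∧ r1 < 3 / 4 ∧
  Law (1 / 1000) (nu r1) ∧ Law (1 / 1000) mix ∧
  ∀ (p q : Prop) (I J : Om), Disjoint I J →
    ((p ∨ q ∨ I = ∅ ∨ J = ∅) → phi (nu r1) p q I J ≤ phi mix p q I J) ∧
    (I.card = 1 → J.card = 1 → phi (nu r1) p q I J - ε ≤ phi mix p q I J) ∧
    (¬ p → ¬ q → I.Nonempty → J.Nonempty → 3 ≤ I.card + J.card →
      phi (nu r1) p q I J + δ ≤ phi mix p q I J)

/-- **Job FIB** (changing a configuration on the sites of `R` costs at most `w ^ |R|`). The order of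
the list does not matter; put the sites of `R` last (`L` is a permutation of `L' ++ R`). For a fixed
outer assignment the inner expectation over `R` of `ind P` is at most `1`, and it is `0` unless some
assignment on `R` satisfies `P`; then some assignment on `R` satisfies `Q`, and it has
weight at least `w ^ |R|`. -/
def S_Fib : Prop := ∀ (w : ℝ) (κ : Vtx → Om → ℝ) (L R : List Vtx) (P Q : Cf → Prop) (B : Cf),
  0 < w → (∀ x, Law w (κ x)) → L.Nodup → R.Nodup → R ⊆ L →
  (∀ A, P A → ∃ A', (∀ v, v ∉ R → A' v = A v) ∧ Q A') →
  w ^ R.length * Ev κ L (fun A => ind (P A)) B ≤ Ev κ L (fun A => ind (Q A)) B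

/-- **Job MOD** (local modification). `x` is strictly inside the box, `II = {i}`, `JJ = {j}`. Let
`G = opn (cut A x) ∩ boxE n`, `Cs` the cluster of the origin in `G`, `Ct` the set of the vertices
connected to the boundary in `G`; they are disjoint. Let `y = nb x i ∈ Cs`, `k` one of the two
directions orthogonal to `i`, `k ≠ j`; `z = nb x k`, `v = nb z i = nb y k` (all in the box, in
`ring x`).
(a) `z ∈ Cs` or `z ∈ Ct`: put `A' z = A z ∪ {op k}`; `G' = G`, so `k` is added to `II` or `JJ`.
(b) otherwise put `A' z = {op k, i}`. (b1) `v ∈ Cs` or `v ∈ Ct`: `A' v = A v ∪ {op i}`; then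
`G' = (G without the edges at z) ∪ {z v}`, and `z` joins `Cs` resp. `Ct`. (b2) `v` in neither:
`A' v = {op i, op k}`, `A' y = A y ∪ {k}`; `G' = (G without edges at z, v) ∪ {z v, v y}`, and `v`, `z`
join `Cs`. In all cases the old paths from `0` to `y` and from `nb x j` to the boundary do not use
the changed vertices (they are in `Cs` resp. `Ct`), and `Cs' ⊆ Cs ∪ {z, v}` does not meet the
boundary. General lemma: let `Z` be a finite set of vertices outside `Cs ∪ Ct`, `G'` a set of edges
which agrees with `G` on the edges not touching `Z`, and such that all edges of `G'` between `Z` and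
its complement end in `Cs` (resp. all end in `Ct`); then `Cs ⊆ Cs' ⊆ Cs ∪ Z`, `Ct ⊆ Ct'` (resp.
`Cs' = Cs`). -/
def S_Mod : Prop := ∀ (n : ℕ) (A : Cf) (x : Vtx), x ∈ bxV n → ¬ onB n x →
  ¬ ArmC n (cut A x) → (II n A x).card = 1 → (JJ n A x).card = 1 →
  ∃ A' : Cf, (∀ v, v ∉ ring x → A' v = A v) ∧ ¬ ArmC n (cut A' x) ∧ (II n A' x).Nonempty ∧
    (JJ n A' x).Nonempty ∧ 3 ≤ (II n A' x).card + (JJ n A' x).card

/-- **Job PROD** (independent retention is independent bond percolation with `p = r^2`). Every
edge `e` of `boxE n` uses the two half-edges `(src e, direction)` and `(tgt e, opposite)`; different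
edges use different half-edges. Step 1: `Ev (fun _ => nu r)` over the list of vertices is
`Ex (fun _ => r)` over the finite set of half-edges `bxV n ×ˢ univ` (a vertex with law `nu r` is 4
independent half-edges: `∑ a : Om, r^|a| (1-r)^(4-|a|) g a = Ex (fun _ => r) univ g`). Step 2: with
`Ex_insert` and `Ex_local`, by induction on the finite set `D` of edges,
`Ex (fun _ => r) H (fun F => f {e ∈ D | both half-edges in F}) = Ex (fun _ => r^2) D f`. -/
def S_Prod : Prop := ∀ (r : ℝ) (n : ℕ) (B : Cf), 0 ≤ r → r ≤ 1 →
  Ev (fun _ => nu r) (bxV n).toList (fun A => ind (ArmC n A)) B = arm (r ^ 2) n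

/-- the sets of exactly three directions -/
abbrev Om3 : Type := {S : Finset (Fin 4) // S.card = 3}

instance : MeasurableSpace Om3 := ⊤

instance : Nonempty Om3 := ⟨⟨{0, 1, 2}, by decide⟩⟩

/-- the law of the 3-neighbour model on `ℤ²` -/
noncomputable def law3 : Measure (ℤ × ℤ → Om3) :=
  Measure.infinitePi (fun _ => (PMF.uniformOfFintype Om3).toMeasure)

/-- the bidirectional graph -/
def bnG (S : ℤ × ℤ → Om3) : SimpleGraph (ℤ × ℤ) where
  Adj x y := ∃ i : Fin 4, i ∈ (S x).1 ∧ op i ∈ (S y).1 ∧ y = nb x i
  symm := ⟨by
    rintro x y ⟨i, h1, h2, rfl⟩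
    refine ⟨op i, h2, ?_, ?_⟩
    · have : op (op i) = i := by fin_cases i <;> rfl
      rw [this]; exact h1
    · fin_cases i <;> simp [nb, dir, op]⟩
  loopless := ⟨by
    rintro x ⟨i, -, -, h⟩
    have h1 := congrArg Prod.fst h
    have h2 := congrArg Prod.snd h
    fin_cases i <;> simp [nb, dir] at h1 h2⟩

/-- **Job INF** (passage to the infinite lattice, as in `Pool.Agent.H974R2.Infinite`). The
component of the origin in `bnG S` is infinite iff for all `n` the arm event `ArmC n` holds for the
configuration `x ↦ (S x).1` (as `H974.infinite_iff`, with `first_exit`); the arm events decrease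
(`armE_anti`); they depend on finitely many coordinates, and the probability of
`{S | ArmC n (x ↦ (S x).1)}` is the finite sum `Ev (fun _ => mu3) (bxV n).toList ...`
(`Measure.infinitePi_pi` for cylinders); continuity from above. -/
def S_Inf : Prop := ∀ c : ℝ,
  (∀ n : ℕ, c ≤ Ev (fun _ => mu3) (bxV n).toList (fun A => ind (ArmC n A)) (fun _ => ∅)) →
  c ≤ law3.real {S | {v | (bnG S).Reachable (0, 0) v}.Infinite}

end Q121.BN
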